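import Pool.Agent.Lib.SLA.Stm

/-!
MP_00e23e_nt, directory Lib/SLA, module Acb (helper92, copy of the MS module by helper22, helper95, helper92, helper69,
helper30 and helper68 with the parameters T and z, which are passed on): one good cell by the bilinear theorem.
-/

namespace Pool.Agent.Lib.SLA

open Finset Pool.Agent.Lib.EH3 Pool.Agent.Lib.TB Pool.Agent.Results.MP_00e23e_nt Pool.Agent.Lib.MI
open Pool.Agent.Lib.MX (Bd Mz En Sp Bd_nonneg Bd_mono rp_le rn_le log_le_T Tau_x)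

private lemma Acb_sum (P G : ℕ → ℂ) (A B : Finset ℕ) (h : ∀ m, P m ≠ 0 → (m ∈ A ↔ m ∈ B)) :
    ∑ m ∈ A, P m * G m = ∑ m ∈ B, P m * G m := by
  have h1 : ∑ m ∈ A ∩ B, P m * G m = ∑ m ∈ A, P m * G m := by
    apply Finset.sum_subset Finset.inter_subset_left
    intro m hm hn
    by_cases h0 : P m = 0
    · rw [h0, zero_mul]
    · exact absurd (Finset.mem_inter.2 ⟨hm, (h m h0).1 hm⟩) hn
  have h2 : ∑ m ∈ A ∩ B, P m * G m = ∑ m ∈ B, P m * G m := by
    apply Finset.sum_subset Finset.inter_subset_right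
    intro m hm hn
    by_cases h0 : P m = 0
    · rw [h0, zero_mul]
    · exact absurd (Finset.mem_inter.2 ⟨(h m h0).2 hm, hm⟩) hn
  rw [← h1, h2]

private lemma Acb_dbl (P Q : ℕ → ℂ) (H : ℕ → ℕ → ℂ) (A A' B B' : Finset ℕ)
    (h1 : ∀ m, P m ≠ 0 → (m ∈ A ↔ m ∈ A')) (h2 : ∀ n, Q n ≠ 0 → (n ∈ B ↔ n ∈ B')) :
    ∑ m ∈ A, ∑ n ∈ B, P m * Q n * H m n = ∑ m ∈ A', ∑ n ∈ B', P m * Q n * H m n := by
  have e1 : ∀ m, ∑ n ∈ B, P m * Q n * H m n = P m * ∑ n ∈ B, Q n * H m n := by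
    intro m
    rw [Finset.mul_sum]
    exact Finset.sum_congr rfl (fun n _ => by ring)
  have e2 : ∀ m, ∑ n ∈ B', P m * Q n * H m n = P m * ∑ n ∈ B, Q n * H m n := by
    intro m
    rw [Acb_sum Q (fun n => H m n) B B' h2, Finset.mul_sum]
    exact Finset.sum_congr rfl (fun n _ => by ring)
  rw [Finset.sum_congr rfl (fun m _ => e1 m), Finset.sum_congr rfl (fun m _ => e2 m)]
  exact Acb_sum P (fun m => ∑ n ∈ B, Q n * H m n) A A' h1

private lemma Acb_norm {K i : ℕ} {f : ℕ → ℂ} (hf : ∀ m, ‖f m‖ ≤ 1) (m : ℕ) : ‖cl K i f m‖ ≤ 1 := by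
  unfold cl
  split_ifs
  · exact hf m
  · simp

/-- e^(1/K) ≤ 13/10 for K ≥ 4 -/
private lemma Acb_exp {K : ℕ} (hK : 4 ≤ K) : Real.exp (1 / (K : ℝ)) ≤ 13 / 10 := by
  have hK' : (4 : ℝ) ≤ K := by exact_mod_cast hK
  have h1 : Real.exp (1 / (K : ℝ)) ≤ Real.exp (1 / 4) := by
    apply Real.exp_le_exp.2
    exact one_div_le_one_div_of_le (by norm_num) hK'
  refine h1.trans ?_
  have h2 : Real.exp (1 / 4) ^ 4 ≤ (13 / 10 : ℝ) ^ 4 := by
    rw [← Real.exp_nat_mul]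
    have : ((4 : ℕ) : ℝ) * (1 / 4) = 1 := by norm_num
    rw [this]
    have := Real.exp_one_lt_d9
    norm_num
    linarith
  exact le_of_pow_le_pow_left₀ (by norm_num) (by norm_num) h2

/-- the cell of i: bounds for its elements -/
private lemma Acb_bd {K i m : ℕ} {f : ℕ → ℂ} (hK : 4 ≤ K) (hm : 1 ≤ m) (h : cl K i f m ≠ 0) :
    Real.exp ((i : ℝ) / K) ≤ m ∧ (m : ℝ) < Real.exp ((i : ℝ) / K) * Real.exp (1 / (K : ℝ)) := by
  have hK' : (0 : ℝ) < K := by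
    have : (4 : ℝ) ≤ K := by exact_mod_cast hK
    linarith
  have hm' : (0 : ℝ) < m := by exact_mod_cast hm
  unfold cl at h
  split_ifs at h with hc
  · obtain ⟨h1, h2⟩ := hc
    constructor
    · rw [← Real.le_log_iff_exp_le hm', div_le_iff₀ hK']
      linarith
    · rw [← Real.exp_add, ← Real.log_lt_iff_lt_exp hm', ← add_div, lt_div_iff₀ hK']
      linarith
  · exact absurd rfl h

private lemma Acb_ne {K i m : ℕ} {f : ℕ → ℂ} (h : cl K i f m ≠ 0) : f m ≠ 0 := by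
  unfold cl at h
  split_ifs at h
  · exact h
  · exact absurd rfl h

private lemma Acb_cell {K i M Y : ℕ} {f : ℕ → ℂ} (hK : 4 ≤ K) (hE : 10 ≤ Real.exp ((i : ℝ) / K))
    (hM1 : Real.exp ((i : ℝ) / K) - 1 ≤ M) (hM2 : (M : ℝ) < Real.exp ((i : ℝ) / K))
    (hY : Real.exp ((i : ℝ) / K) * Real.exp (1 / (K : ℝ)) ≤ Y) (m : ℕ) (h : cl K i f m ≠ 0) :
    m ∈ Icc 1 Y ↔ m ∈ Ioc M (2 * M) := by
  rcases Nat.eq_zero_or_pos m with h0 | h0
  · subst h0
    simp
  · obtain ⟨b1, b2⟩ := Acb_bd hK h0 h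
    have hex := Acb_exp hK
    have b3 : Real.exp ((i : ℝ) / K) * Real.exp (1 / (K : ℝ)) ≤ Real.exp ((i : ℝ) / K) * (13 / 10) :=
      mul_le_mul_of_nonneg_left hex (by linarith)
    constructor
    · intro _
      rw [Finset.mem_Ioc]
      constructor
      · have : (M : ℝ) < m := by linarith
        exact_mod_cast this
      · have : (m : ℝ) < ((2 * M : ℕ) : ℝ) := by
          push_cast
          linarith
        have := Nat.cast_lt.1 this
        omega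
    · intro _
      rw [Finset.mem_Icc]
      refine ⟨h0, ?_⟩
      have : (m : ℝ) < (Y : ℝ) := by linarith
      have := Nat.cast_lt.1 this
      omega

private lemma Acb_ceil {E : ℝ} (hE : 10 ≤ E) : ∃ M : ℕ, E - 1 ≤ M ∧ (M : ℝ) < E := by
  refine ⟨⌈E⌉₊ - 1, ?_, ?_⟩
  · have h1 : 1 ≤ ⌈E⌉₊ := Nat.one_le_ceil_iff.2 (by linarith)
    rw [Nat.cast_sub h1]
    have := Nat.le_ceil E
    push_cast
    linarith
  · have h1 : 1 ≤ ⌈E⌉₊ := Nat.one_le_ceil_iff.2 (by linarith)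
    rw [Nat.cast_sub h1]
    have := Nat.ceil_lt_add_one (show 0 ≤ E by linarith)
    push_cast
    linarith

theorem tAcb : AcbStmt := by
  intro Φ α τ ε hε hε1 hBl
  obtain ⟨η, C, x1, A0, hη, hC, hmain⟩ := hBl
  refine ⟨η, C, max x1 (max 50625 ((10 : ℝ) ^ (1 / ε))), A0, hη, hC, ?_, ?_⟩
  · exact le_trans (by norm_num) ((le_max_left (50625 : ℝ) _).trans (le_max_right _ _))
  intro x T z a Y K i j f g F t hx hT hz1 hzx hYx hK hf hg hfs hij hijY hF hN
  have hx1 : x1 ≤ x := (le_max_left _ _).trans hx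
  have hx2 : (50625 : ℝ) ≤ x := ((le_max_left (50625 : ℝ) _).trans (le_max_right _ _)).trans hx
  have hx3 : (10 : ℝ) ^ (1 / ε) ≤ x := ((le_max_right (50625 : ℝ) _).trans (le_max_right _ _)).trans hx
  have hxpos : 0 < x := by linarith
  have hx1' : 1 ≤ x := by linarith
  have hrhs : 0 ≤ Bd C A0 η x T z := Bd_nonneg hC hT.1 hxpos.le hz1
  by_cases hz : ∀ m ∈ Icc 1 Y, cl K i f m = 0
  · have : ∑ q ∈ F, ‖∑ m ∈ Icc 1 Y, ∑ n ∈ Icc 1 Y, cl K i f m * cl K j g n * Ek (a q) (t q) q (m * n)‖ = 0 := by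
      apply Finset.sum_eq_zero
      intro q _
      rw [norm_eq_zero]
      apply Finset.sum_eq_zero
      intro m hm
      apply Finset.sum_eq_zero
      intro n _
      rw [hz m hm]
      ring
    rw [this]
    exact hrhs
  push Not at hz
  obtain ⟨m0, hm0, hcl⟩ := hz
  rw [Finset.mem_Icc] at hm0
  have hK' : (4 : ℝ) ≤ K := by exact_mod_cast hK
  have hKpos : (0 : ℝ) < K := by linarith
  have hYpos : (1 : ℝ) ≤ Y := by exact_mod_cast hm0.1.trans hm0.2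
  obtain ⟨b1, b2⟩ := Acb_bd hK hm0.1 hcl
  obtain ⟨s1, s2⟩ := hfs m0 (Acb_ne hcl)
  have hex := Acb_exp hK
  -- E and E'
  obtain ⟨E, hE⟩ : ∃ E, E = Real.exp ((i : ℝ) / K) := ⟨_, rfl⟩
  obtain ⟨E', hE'⟩ : ∃ E', E' = Real.exp ((j : ℝ) / K) := ⟨_, rfl⟩
  have hEpos : 0 < E := by rw [hE]; exact Real.exp_pos _
  have hE'pos : 0 < E' := by rw [hE']; exact Real.exp_pos _
  have hEE : E * E' = Real.exp (((i : ℝ) + j) / K) := by
    rw [hE, hE', ← Real.exp_add, add_div]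
  rw [← hE] at b1 b2
  have b3 : E * Real.exp (1 / (K : ℝ)) ≤ E * (13 / 10) := mul_le_mul_of_nonneg_left hex hEpos.le
  -- powers of x
  obtain ⟨w, hw⟩ : ∃ w, w = x ^ ((1 : ℝ) / 3) := ⟨_, rfl⟩
  have hquart : (15 : ℝ) ≤ x ^ ((1 : ℝ) / 4) := by
    have h1 : ((15 : ℝ) ^ (4 : ℕ)) ^ ((1 : ℝ) / 4) = 15 := by
      rw [← Real.rpow_natCast, ← Real.rpow_mul (by norm_num)]
      norm_num
    calc (15 : ℝ) = ((15 : ℝ) ^ (4 : ℕ)) ^ ((1 : ℝ) / 4) := h1.symm
      _ ≤ x ^ ((1 : ℝ) / 4) := by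
          apply Real.rpow_le_rpow (by norm_num) _ (by norm_num)
          norm_num
          exact hx2
  have hw15 : (15 : ℝ) ≤ w := by
    rw [hw]
    exact hquart.trans (Real.rpow_le_rpow_of_exponent_le hx1' (by norm_num))
  have hEw : w / (13 / 10) < E := by
    rw [div_lt_iff₀ (by norm_num)]
    rw [hw]
    linarith
  have hE10 : 10 ≤ E := by
    have : w / (13 / 10) = w * (10 / 13) := by ring
    linarith
  have hexE : Real.exp (Real.log 4 + (1 - ε / 2) * Real.log x) ≤ E * E' := by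
    rw [hEE]
    apply Real.exp_le_exp.2
    rw [le_div_iff₀ hKpos]
    linarith
  have hex2 : Real.exp (Real.log 4 + (1 - ε / 2) * Real.log x) = 4 * x ^ (1 - ε / 2) := by
    rw [Real.exp_add, Real.exp_log (by norm_num), Real.rpow_def_of_pos hxpos, mul_comm (Real.log x)]
  rw [hex2] at hexE
  have hE'low : 4 * x ^ ((1 : ℝ) / 3 - ε / 2) ≤ E' := by
    have h1 : 4 * x ^ ((1 : ℝ) / 3 - ε / 2) * x ^ ((2 : ℝ) / 3) = 4 * x ^ (1 - ε / 2) := by
      rw [mul_assoc, ← Real.rpow_add hxpos]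
      congr 2
      ring
    have h2 : E * E' ≤ x ^ ((2 : ℝ) / 3) * E' := mul_le_mul_of_nonneg_right (b1.trans s2) hE'pos.le
    have h3 : 0 < x ^ ((2 : ℝ) / 3) := Real.rpow_pos_of_pos hxpos _
    have h4 : 4 * x ^ ((1 : ℝ) / 3 - ε / 2) * x ^ ((2 : ℝ) / 3) ≤ E' * x ^ ((2 : ℝ) / 3) := by
      rw [h1]
      linarith
    exact le_of_mul_le_mul_right h4 h3
  have hA15 : (15 : ℝ) ≤ x ^ ((1 : ℝ) / 3 - ε / 2) :=
    hquart.trans (Real.rpow_le_rpow_of_exponent_le hx1' (by linarith))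
  have hE'10 : 10 ≤ E' := by linarith
  have hx10 : (10 : ℝ) ≤ x ^ ε := by
    have h1 : ((10 : ℝ) ^ (1 / ε)) ^ ε = 10 := by
      rw [← Real.rpow_mul (by norm_num), one_div, inv_mul_cancel₀ hε.ne', Real.rpow_one]
    calc (10 : ℝ) = ((10 : ℝ) ^ (1 / ε)) ^ ε := h1.symm
      _ ≤ x ^ ε := Real.rpow_le_rpow (by positivity) hx3 hε.le
  -- M and N
  obtain ⟨M, hM1, hM2⟩ := Acb_ceil hE10
  obtain ⟨N, hN1, hN2⟩ := Acb_ceil hE'10
  have hNlow : x ^ ((1 : ℝ) / 3 - ε) ≤ N := by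
    have : x ^ ((1 : ℝ) / 3 - ε) ≤ x ^ ((1 : ℝ) / 3 - ε / 2) :=
      Real.rpow_le_rpow_of_exponent_le hx1' (by linarith)
    linarith
  have hMlow : x ^ ((1 : ℝ) / 3 - ε) ≤ M := by
    have h1 : x ^ ((1 : ℝ) / 3 - ε) * x ^ ε = w := by
      rw [← Real.rpow_add hxpos, hw]
      congr 1
      ring
    have h2 : x ^ ((1 : ℝ) / 3 - ε) * 10 ≤ w := by
      rw [← h1]
      exact mul_le_mul_of_nonneg_left hx10 (Real.rpow_nonneg hxpos.le _)
    have h3 : w / (13 / 10) = w * (10 / 13) := by ring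
    linarith
  have hMN1 : x ^ (1 - ε) ≤ (M : ℝ) * N := by
    have h1 : x ^ (1 - ε) ≤ x ^ (1 - ε / 2) := Real.rpow_le_rpow_of_exponent_le hx1' (by linarith)
    have h2 : E / 2 ≤ M := by linarith
    have h3 : E' / 2 ≤ N := by linarith
    have h4 : (E / 2) * (E' / 2) ≤ (M : ℝ) * N := mul_le_mul h2 h3 (by positivity) (by positivity)
    have h5 : (E / 2) * (E' / 2) = E * E' / 4 := by ring
    linarith
  have hlogY : (((i : ℝ) + j) / K) + 2 / K ≤ Real.log Y := by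
    rw [← add_div, div_le_iff₀ hKpos]
    linarith
  have hEEexp : E * E' * Real.exp (2 / (K : ℝ)) ≤ Y := by
    rw [hEE, ← Real.exp_add, ← Real.le_log_iff_exp_le (by linarith)]
    exact hlogY
  have h2K : 1 ≤ Real.exp (2 / (K : ℝ)) := Real.one_le_exp (by positivity)
  have h12 : Real.exp (1 / (K : ℝ)) ≤ Real.exp (2 / (K : ℝ)) := by
    apply Real.exp_le_exp.2
    exact div_le_div_of_nonneg_right (by norm_num) hKpos.le
  have hEEY : E * E' ≤ Y := by
    have : E * E' * 1 ≤ E * E' * Real.exp (2 / (K : ℝ)) := mul_le_mul_of_nonneg_left h2K (by positivity)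
    linarith
  have hMN2 : (M : ℝ) * N ≤ x := by
    have : (M : ℝ) * N ≤ E * E' := mul_le_mul hM2.le hN2.le (by positivity) hEpos.le
    linarith
  have hYE : E * Real.exp (1 / (K : ℝ)) ≤ Y := by
    have h1 : E * Real.exp (1 / (K : ℝ)) ≤ E * E' * Real.exp (2 / (K : ℝ)) := by
      have : E * 1 ≤ E * E' := mul_le_mul_of_nonneg_left (by linarith) hEpos.le
      exact mul_le_mul (by linarith) h12 (Real.exp_pos _).le (by positivity)
    linarith
  have hYE' : E' * Real.exp (1 / (K : ℝ)) ≤ Y := by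
    have h1 : E' * Real.exp (1 / (K : ℝ)) ≤ E * E' * Real.exp (2 / (K : ℝ)) := by
      have : 1 * E' ≤ E * E' := mul_le_mul_of_nonneg_right (by linarith) hE'pos.le
      exact mul_le_mul (by linarith) h12 (Real.exp_pos _).le (by positivity)
    linarith
  have hsum : ∀ q, ∑ m ∈ Icc 1 Y, ∑ n ∈ Icc 1 Y, cl K i f m * cl K j g n * Ek (a q) (t q) q (m * n) =
      ∑ m ∈ Ioc M (2 * M), ∑ n ∈ Ioc N (2 * N), cl K i f m * cl K j g n * Ek (a q) (t q) q (m * n) := by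
    intro q
    apply Acb_dbl (cl K i f) (cl K j g) (fun m n => Ek (a q) (t q) q (m * n))
    · intro m hm
      rw [hE] at hE10 hM1 hM2 hYE
      exact Acb_cell hK hE10 hM1 hM2 hYE m hm
    · intro n hn
      rw [hE'] at hE'10 hN1 hN2 hYE'
      exact Acb_cell hK hE'10 hN1 hN2 hYE' n hn
  rw [Finset.sum_congr rfl (fun q _ => by rw [hsum q])]
  exact hmain x T z a M N (cl K i f) (cl K j g) F t hx1 hT hz1 hzx hNlow hMlow hMN1 hMN2
    (Acb_norm hf) (Acb_norm hg) hF hN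

end Pool.Agent.Lib.SLA
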