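import Pool.Agent.Lib.SLA.Stm

/-! MP_00e23e_nt, Lib/SLA, chapter F, module Fps: the first assertion for large x. -/

namespace Pool.Agent.Lib.SLA

open Finset Pool.Agent.Lib.EH3 Pool.Agent.Lib.TB Pool.Agent.Results.MP_00e23e_nt Pool.Agent.Lib.MI
open Pool.Agent.Lib.MX (Bd Mz En Sp Bd_nonneg Bd_mono rp_le rn_le log_le_T Tau_x)

private lemma Fps_class (Φ : Hyp) (α τ η1 C1 x1 : ℝ) (A1 : ℕ)
    (hF : ∀ (x T z : ℝ) (a : ℕ → ℤ) (Y : ℕ) (F : Finset ℕ) (t : ℕ → ℕ), x1 ≤ x → Tau (x ^ (30 : ℝ)) T → 1 ≤ z → z ≤ x →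
      (Y : ℝ) ≤ x → (∀ q ∈ F, Mz α τ z x (t q) q ∧ Int.gcd (a q) q = 1) → Φ x a t F →
      ∑ q ∈ F, |df Y q (t q) (a q)| ≤ Bd C1 A1 η1 x T z)
    (x T z : ℝ) (s : ℕ → ℤ) (t i : ℕ → ℕ) (M : Finset ℕ) (Y : ℕ) (hx : x1 ≤ x)
    (hT : Tau (x ^ (30 : ℝ)) T) (hz : 1 ≤ z) (hzx : z ≤ x) (hY : (Y : ℝ) ≤ x)
    (hM : ∀ d ∈ M, Mz α τ z x (t d) d ∧ Int.gcd (s d) d = 1)
    (hN : ∀ w : ℕ, Φ x s t (M.filter (fun d => i d = w))) :
    ∑ d ∈ M, |df Y d (t d) (s d)| ≤ ((M.image i).card : ℝ) * Bd C1 A1 η1 x T z := by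
  classical
  rw [← Finset.sum_fiberwise_of_maps_to (s := M) (t := M.image i)
    (g := i) (fun d hd => Finset.mem_image_of_mem _ hd)]
  have key : ∀ w ∈ M.image i,
      ∑ d ∈ M.filter (fun d => i d = w), |df Y d (t d) (s d)| ≤ Bd C1 A1 η1 x T z := by
    intro w _
    refine hF x T z s Y (M.filter (fun d => i d = w)) t hx hT hz hzx hY ?_ (hN w)
    intro q hq
    exact hM q (Finset.mem_filter.1 hq).1
  refine (Finset.sum_le_sum key).trans ?_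
  rw [Finset.sum_const, nsmul_eq_mul]

private lemma Fps_harm (x : ℝ) (hx : 3 ≤ x) (Z : ℝ) (hZ1 : 0 ≤ Z) (hZ : Z ≤ x) :
    ∑ n ∈ Icc 1 ⌊Z⌋₊, 1 / (n : ℝ) ≤ 1 + Real.log x := by
  have h1 : ∑ n ∈ Icc 1 ⌊Z⌋₊, 1 / (n : ℝ) = ((harmonic ⌊Z⌋₊ : ℚ) : ℝ) := by
    rw [harmonic_eq_sum_Icc]
    push_cast
    apply Finset.sum_congr rfl
    intro n _
    rw [one_div]
  rw [h1]
  have h2 := harmonic_le_one_add_log ⌊Z⌋₊
  refine h2.trans ?_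
  rcases Nat.eq_zero_or_pos ⌊Z⌋₊ with h0 | h0
  · rw [h0]
    simp only [Nat.cast_zero, Real.log_zero, add_zero]
    have := Real.log_nonneg (show (1 : ℝ) ≤ x by linarith)
    linarith
  · have h3 : ((⌊Z⌋₊ : ℕ) : ℝ) ≤ x := (Nat.floor_le hZ1).trans hZ
    have h4 := Real.log_le_log (by exact_mod_cast h0) h3
    linarith

private lemma Fps_second (h4 : MI.FtnStmt) (η : ℝ) (hη : 0 < η) (hη' : η ≤ 1 / 10) (x T z : ℝ) (hx : 3 ≤ x)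
    (hT : Tau (x ^ (30 : ℝ)) T) (hz : 1 ≤ z) (hzx : z ≤ x) (G : ℕ)
    (hG : z ^ η ≤ (G : ℝ)) (t : ℕ → ℕ) (M : Finset ℕ)
    (hM : ∀ d ∈ M, 1 ≤ d ∧ t d ∣ d ∧ (d : ℝ) ≤ x ∧ (t d : ℝ) ≤ x ^ ((1 : ℝ) / 3)) :
    ∑ d ∈ M, (x / ((G : ℝ) * (t d : ℝ)) + 2) / ((d / t d).totient : ℝ) ≤ 18 * T ^ 3 * (x / z ^ η) := by
  have hx0 : 0 < x := by linarith
  have hx1 : 1 ≤ x := by linarith
  have hz0 : 0 < z := by linarith
  have hzη : 0 < z ^ η := Real.rpow_pos_of_pos hz0 _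
  have hGpos : 0 < (G : ℝ) := lt_of_lt_of_le hzη hG
  have h5 := h4.2 x (x ^ ((1 : ℝ) / 3)) M t (fun n => x / ((G : ℝ) * (n : ℝ)) + 2) hx
    (fun n => by positivity) hM
  refine h5.trans ?_
  have hZ1 : (0 : ℝ) ≤ x ^ ((1 : ℝ) / 3) := (Real.rpow_pos_of_pos hx0 _).le
  have hZx : x ^ ((1 : ℝ) / 3) ≤ x := by
    calc x ^ ((1 : ℝ) / 3) ≤ x ^ (1 : ℝ) := Real.rpow_le_rpow_of_exponent_le hx1 (by norm_num)
      _ = x := Real.rpow_one x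
  have hL0 : 0 ≤ Real.log x := Real.log_nonneg hx1
  have hLT : 1 + Real.log x ≤ T := log_le_T hx1 hT
  have hT1 : 1 ≤ T := by linarith
  have hxz : 0 < x / z ^ η := div_pos hx0 hzη
  have hthird : x ^ ((1 : ℝ) / 3) ≤ x / z ^ η := by
    have e1 := rp_le (μ := 2 / 3) hz hzx (by norm_num)
    have e2 : (1 : ℝ) - 2 / 3 = 1 / 3 := by norm_num
    rw [e2] at e1
    refine e1.trans ?_
    have e3 : z ^ η ≤ z ^ ((2 : ℝ) / 3) := Real.rpow_le_rpow_of_exponent_le hz (by linarith)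
    exact div_le_div_of_nonneg_left hx0.le hzη e3
  have hsum : ∑ n ∈ Icc 1 ⌊x ^ ((1 : ℝ) / 3)⌋₊, (x / ((G : ℝ) * (n : ℝ)) + 2) ≤ 3 * T * (x / z ^ η) := by
    rw [Finset.sum_add_distrib, Finset.sum_const, nsmul_eq_mul, Nat.card_Icc]
    have e1 : ∑ n ∈ Icc 1 ⌊x ^ ((1 : ℝ) / 3)⌋₊, x / ((G : ℝ) * (n : ℝ)) =
        (x / G) * ∑ n ∈ Icc 1 ⌊x ^ ((1 : ℝ) / 3)⌋₊, 1 / (n : ℝ) := by
      rw [Finset.mul_sum]
      apply Finset.sum_congr rfl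
      intro n _
      rw [div_mul_div_comm, mul_one]
    have e2 : x / G ≤ x / z ^ η := div_le_div_of_nonneg_left hx0.le hzη hG
    have e3 := Fps_harm x hx _ hZ1 hZx
    have e4 : (((⌊x ^ ((1 : ℝ) / 3)⌋₊ + 1 - 1 : ℕ) : ℝ)) ≤ x ^ ((1 : ℝ) / 3) := by
      simpa using Nat.floor_le hZ1
    have e5 : (0 : ℝ) ≤ ∑ n ∈ Icc 1 ⌊x ^ ((1 : ℝ) / 3)⌋₊, 1 / (n : ℝ) :=
      Finset.sum_nonneg (fun n _ => by positivity)
    rw [e1]
    have e6 : (x / G) * ∑ n ∈ Icc 1 ⌊x ^ ((1 : ℝ) / 3)⌋₊, 1 / (n : ℝ) ≤ (x / z ^ η) * T :=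
      mul_le_mul e2 (e3.trans hLT) e5 hxz.le
    have e7 : x / z ^ η ≤ T * (x / z ^ η) := le_mul_of_one_le_left hxz.le hT1
    have e8 : (x / z ^ η) * T = T * (x / z ^ η) := mul_comm _ _
    have e9 : 3 * T * (x / z ^ η) = 3 * (T * (x / z ^ η)) := by ring
    linarith
  have hL2 : Real.log x ^ 2 ≤ T ^ 2 := pow_le_pow_left₀ hL0 (by linarith) 2
  have hs0 : 0 ≤ 3 * T * (x / z ^ η) := by positivity
  calc 6 * Real.log x ^ 2 * ∑ n ∈ Icc 1 ⌊x ^ ((1 : ℝ) / 3)⌋₊, (x / ((G : ℝ) * (n : ℝ)) + 2)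
      ≤ 6 * Real.log x ^ 2 * (3 * T * (x / z ^ η)) :=
        mul_le_mul_of_nonneg_left hsum (by positivity)
    _ ≤ 6 * T ^ 2 * (3 * T * (x / z ^ η)) := by
        apply mul_le_mul_of_nonneg_right _ hs0
        linarith
    _ = 18 * T ^ 3 * (x / z ^ η) := by ring

theorem tFps (h1 : FpiStmt) (h2 : MI.FgrStmt) (h3 : MI.FtnStmt) : FpsStmt := by
  intro Φ α τ hα hτ0 hτ hcore
  obtain ⟨η1, C1, x1, A1, hη1, hC1, hx1, hF⟩ := h1 Φ α τ hα hτ0 hτ hcore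
  set η : ℝ := min (η1 / 2) (1 / 10) with hηdef
  have hη : 0 < η := lt_min (by positivity) (by norm_num)
  have hη' : η ≤ 1 / 10 := min_le_right _ _
  have hη2 : 2 * η ≤ η1 := by
    have := min_le_left (η1 / 2) (1 / 10 : ℝ)
    rw [← hηdef] at this
    linarith
  refine ⟨η, 3 * C1 + 18, x1, A1 + 3, hη, hη', by positivity, hx1, ?_⟩
  intro x T z s t i y M hx hT hz hzx hy hM hN
  have hx3 : 3 ≤ x := hx1.trans hx
  have hx0 : 0 < x := by linarith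
  have hx1' : 1 ≤ x := by linarith
  have hz0 : 0 < z := by linarith
  have hzη : 0 < z ^ η := Real.rpow_pos_of_pos hz0 _
  have hLT : 1 + Real.log x ≤ T := log_le_T hx1' hT
  have hT1 : 1 ≤ T := by
    have := Real.log_nonneg hx1'
    linarith
  rcases M.eq_empty_or_nonempty with hM0 | hMne
  · subst hM0
    simp
  have hJ : (1 : ℝ) ≤ ((M.image i).card : ℝ) := by
    have : 0 < (M.image i).card := Finset.card_pos.2 (hMne.image i)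
    exact_mod_cast this
  set G : ℕ := ⌈z ^ η⌉₊ with hGdef
  have hGle : z ^ η ≤ (G : ℝ) := Nat.le_ceil _
  have hp1 : 1 ≤ z ^ η := Real.one_le_rpow hz hη.le
  have hG1 : 1 ≤ G := by
    have : (1 : ℝ) ≤ (G : ℝ) := hp1.trans hGle
    exact_mod_cast this
  have hGup : (G : ℝ) + 1 ≤ 3 * z ^ η := by
    have := Nat.ceil_lt_add_one (show (0 : ℝ) ≤ z ^ η by positivity)
    rw [← hGdef] at this
    linarith
  have hGpos : 0 < (G : ℝ) := by exact_mod_cast hG1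
  have hMb : ∀ d ∈ M, 1 ≤ d ∧ t d ∣ d ∧ (d : ℝ) ≤ x ∧ (t d : ℝ) ≤ x ^ ((1 : ℝ) / 3) := by
    intro d hd
    have hd' := (hM d hd).1
    refine ⟨Nat.pos_of_ne_zero hd'.1.ne_zero, hd'.2.1, ?_, ?_⟩
    · refine hd'.2.2.1.trans ?_
      calc x ^ α ≤ x ^ (1 : ℝ) := Real.rpow_le_rpow_of_exponent_le hx1' (by linarith)
        _ = x := Real.rpow_one x
    · exact hd'.2.2.2.1.trans (Real.rpow_le_rpow_of_exponent_le hx1' hτ)
  have hsum : ∑ d ∈ M, |df (y d) d (t d) (s d)| ≤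
      ∑ d ∈ M, (∑ j ∈ range (G + 1), |df (⌊(j : ℝ) * x / G⌋₊ : ℝ) d (t d) (s d)| +
        (x / ((G : ℝ) * (t d : ℝ)) + 2) / ((d / t d).totient : ℝ)) := by
    apply Finset.sum_le_sum
    intro d hd
    exact h2 x (y d) G d (t d) (s d) (hy d).1 (hy d).2 hG1 (hMb d hd).1 (hMb d hd).2.1
  refine hsum.trans ?_
  rw [Finset.sum_add_distrib, Finset.sum_comm]
  set J : ℝ := ((M.image i).card : ℝ) with hJdef
  have hxz : 0 < x / z ^ η := div_pos hx0 hzη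
  have hz1 : 0 < z ^ η1 := Real.rpow_pos_of_pos hz0 _
  have hsav : z ^ η * (x / z ^ η1) ≤ x / z ^ η := by
    rw [mul_div_assoc', div_le_div_iff₀ hz1 hzη]
    have e1 : z ^ η * z ^ η ≤ z ^ η1 := by
      rw [← Real.rpow_add hz0]
      exact Real.rpow_le_rpow_of_exponent_le hz (by linarith)
    calc z ^ η * x * z ^ η = x * (z ^ η * z ^ η) := by ring
      _ ≤ x * z ^ η1 := mul_le_mul_of_nonneg_left e1 hx0.le
  have hfirst : ∑ j ∈ range (G + 1), ∑ d ∈ M, |df (⌊(j : ℝ) * x / G⌋₊ : ℝ) d (t d) (s d)| ≤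
      3 * C1 * J * T ^ A1 * (x / z ^ η) := by
    have hj : ∀ j ∈ range (G + 1), ∑ d ∈ M, |df (⌊(j : ℝ) * x / G⌋₊ : ℝ) d (t d) (s d)| ≤
        J * (C1 * T ^ A1 * (x / z ^ η1)) := by
      intro j hj
      have hj' : (j : ℝ) ≤ G := by
        have := Finset.mem_range.1 hj
        exact_mod_cast Nat.lt_succ_iff.1 this
      have hjx : (⌊(j : ℝ) * x / G⌋₊ : ℝ) ≤ x := by
        have e1 : (⌊(j : ℝ) * x / G⌋₊ : ℝ) ≤ (j : ℝ) * x / G := Nat.floor_le (by positivity)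
        refine e1.trans ?_
        rw [div_le_iff₀ hGpos, mul_comm]
        exact mul_le_mul_of_nonneg_left hj' hx0.le
      exact Fps_class Φ α τ η1 C1 x1 A1 hF x T z s t i M ⌊(j : ℝ) * x / G⌋₊ hx hT hz hzx hjx hM hN
    refine (Finset.sum_le_sum hj).trans ?_
    rw [Finset.sum_const, nsmul_eq_mul, Finset.card_range]
    push_cast
    have hq : 0 ≤ x / z ^ η1 := (div_pos hx0 hz1).le
    calc ((G : ℝ) + 1) * (J * (C1 * T ^ A1 * (x / z ^ η1)))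
        ≤ (3 * z ^ η) * (J * (C1 * T ^ A1 * (x / z ^ η1))) :=
          mul_le_mul_of_nonneg_right hGup (by positivity)
      _ = 3 * C1 * J * T ^ A1 * (z ^ η * (x / z ^ η1)) := by ring
      _ ≤ 3 * C1 * J * T ^ A1 * (x / z ^ η) := mul_le_mul_of_nonneg_left hsav (by positivity)
  have hsecond := Fps_second h3 η hη hη' x T z hx3 hT hz hzx G hGle t M hMb
  have hT3 : T ^ 3 ≤ T ^ (A1 + 3) := pow_le_pow_right₀ hT1 (by omega)
  have hTA : T ^ A1 ≤ T ^ (A1 + 3) := pow_le_pow_right₀ hT1 (by omega)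
  have f1 : 3 * C1 * J * T ^ A1 * (x / z ^ η) ≤ 3 * C1 * J * T ^ (A1 + 3) * (x / z ^ η) := by
    apply mul_le_mul_of_nonneg_right _ hxz.le
    exact mul_le_mul_of_nonneg_left hTA (by positivity)
  have f2 : 18 * T ^ 3 * (x / z ^ η) ≤ 18 * (J * T ^ (A1 + 3)) * (x / z ^ η) := by
    apply mul_le_mul_of_nonneg_right _ hxz.le
    have e1 : T ^ (A1 + 3) ≤ J * T ^ (A1 + 3) := le_mul_of_one_le_left (by positivity) hJ
    linarith
  unfold MX.Bd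
  calc ∑ j ∈ range (G + 1), ∑ d ∈ M, |df (⌊(j : ℝ) * x / G⌋₊ : ℝ) d (t d) (s d)| +
        ∑ d ∈ M, (x / ((G : ℝ) * (t d : ℝ)) + 2) / ((d / t d).totient : ℝ)
      ≤ 3 * C1 * J * T ^ (A1 + 3) * (x / z ^ η) + 18 * (J * T ^ (A1 + 3)) * (x / z ^ η) :=
        add_le_add (hfirst.trans f1) (hsecond.trans f2)
    _ = J * ((3 * C1 + 18) * T ^ (A1 + 3) * (x / z ^ η)) := by ring

end Pool.Agent.Lib.SLA
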