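import Pool.Agent.Lib.MI.Ava
import Pool.Agent.Lib.CO.Vgb
import Pool.Agent.Lib.MI.Aty
import Pool.Agent.Lib.MI.Act
import Pool.Agent.Lib.MI.Acl
import Pool.Agent.Lib.MK.Atr
import Pool.Agent.Lib.MK.Anm
import Pool.Agent.Lib.MI.Ftp
import Pool.Agent.Lib.MI.Ftn
import Pool.Agent.Lib.MK.Fpw
import Pool.Agent.Lib.MI.Fab
import Pool.Agent.Lib.MI.Fgr
import Pool.Agent.Lib.MX.Wig
import Pool.Agent.Lib.MI.Fbv
import Pool.Agent.Lib.BV.All
import Pool.Agent.Lib.KF.Rse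
import Pool.Agent.Lib.MX.Mer
import Pool.Agent.Lib.MX.Rae
import Pool.Agent.Lib.MX.Exe
import Pool.Agent.Lib.SLA.Acb
import Pool.Agent.Lib.SLA.Abi
import Pool.Agent.Lib.SLA.Afi
import Pool.Agent.Lib.SLA.Fth
import Pool.Agent.Lib.SLA.Fpi
import Pool.Agent.Lib.SLA.Fps
import Pool.Agent.Lib.SLA.Fig
import Pool.Agent.Lib.SLA.Prg

/-! MP_00e23e_nt, directory Lib/SLA (THEOREM SL, single lock): chapters A and F without hypotheses. -/

namespace Pool.Agent.Lib.SLA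

open Pool.Agent.Lib.TB

/-- Chapter A. -/
theorem tAAll : AfiStmt :=
  tAfi MI.tAva CO.tVgb (MI.tAty MI.tAct) (tAbi MI.tAcl (MK.tAtr MK.tAnm) tAcb)

/-- Chapter F. -/
theorem tFpsAll : FpsStmt := tFps (tFpi (tFth MI.tFtp MI.tFtn MK.tFpw) MI.tFab) MI.tFgr MI.tFtn

/-- Bombieri-Vinogradov for the divisors t. -/
theorem tFbvAll : MI.FbvStmt := MI.tFbv BV.aExt KF.tRse MI.tFtn

/-- the exceptional moduli. -/
theorem tExeAll : MX.ExeStmt := MX.tExe (MX.tRae MX.tMer) MI.tFtn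

theorem tFigAll : FigStmt := tFig tFpsAll MX.tWig tFbvAll tExeAll

end Pool.Agent.Lib.SLA
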