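import Pool.Agent.Lib.SLA.Prk

/-!
MP_00e23e_nt, directory Lib/SLA: the end of project P2 (a lock of size x^l for every l > 0): the display form from SlPk for small
parameters.
-/

namespace Pool.Agent.Lib.SLA

open Finset Pool.Agent.Lib.EH3 Pool.Agent.Lib.TB Pool.Agent.Results.MP_00e23e_nt Pool.Agent.Lib.MI
open Pool.Agent.Lib.MX (Bd Mz En Sp Bd_nonneg Bd_mono rp_le rn_le log_le_T Tau_x)

/-- the display form with one parameter δ -/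
theorem EndP_display {c δ κ l l' : ℝ} (hc : 0 < c) (hδ : 0 < δ) (hκ : 0 < κ) (h : SlPk c δ 0 κ l l') :
    ∃ δ0 : ℝ, 0 < δ0 ∧ ∀ U : ℝ, 0 < U → ∃ C : ℝ,
    ∀ (x : ℝ) (P : Finset (ℕ × ℕ)) (B : ℕ → Finset ℤ) (a : ℕ × ℕ → ℤ) (y : ℕ × ℕ → ℝ), 3 ≤ x →
      (∀ r : ℕ, ((B r).card : ℝ) ≤ x ^ δ0) →
      (∀ w ∈ P, (x ^ l ≤ (w.1 : ℝ) ∧ (w.1 : ℝ) ≤ x ^ l' ∧ Squarefree (w.1 * w.2) ∧
          ((w.1 * w.2 : ℕ) : ℝ) ≤ x ^ (1 / 2 + δ0) ∧ ∀ p : ℕ, p.Prime → p ∣ w.1 * w.2 → (p : ℝ) ≤ x ^ δ0) ∧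
        Int.gcd (a w) ((w.1 * w.2 : ℕ) : ℤ) = 1 ∧ (∃ b ∈ B w.1, (w.1 : ℤ) ∣ a w - b) ∧ 2 ≤ y w ∧ y w ≤ x) →
      ∑ w ∈ P, |resErr (y w) (w.1 * w.2) (a w)| ≤ C * (x / (Real.log x) ^ U) := by
  refine ⟨min δ (min κ c), lt_min hδ (lt_min hκ hc), fun U hU => ?_⟩
  obtain ⟨C, hC⟩ := h.display U hU
  refine ⟨C, fun x P B a y hx hB hP => ?_⟩
  have hx1 : 1 ≤ x := by linarith
  have e1 : min δ (min κ c) ≤ δ := min_le_left _ _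
  have e2 : min δ (min κ c) ≤ κ := (min_le_right _ _).trans (min_le_left _ _)
  have e3 : min δ (min κ c) ≤ c := (min_le_right _ _).trans (min_le_right _ _)
  have f2 : x ^ (min δ (min κ c)) ≤ x ^ κ := Real.rpow_le_rpow_of_exponent_le hx1 e2
  have f3 : x ^ (min δ (min κ c)) ≤ x ^ c := Real.rpow_le_rpow_of_exponent_le hx1 e3
  have f1 : x ^ (1 / 2 + min δ (min κ c)) ≤ x ^ (1 / 2 + δ) :=
    Real.rpow_le_rpow_of_exponent_le hx1 (by linarith)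
  refine hC x B a y P hx (fun r => (hB r).trans f3) fun w hw => ?_
  obtain ⟨⟨m1, m2, m3, m4, m5⟩, m6, m7, m8, m9⟩ := hP w hw
  refine ⟨⟨⟨m3, m4.trans f1, 1, one_dvd _, ?_, fun p hp hpd => ?_⟩, ⟨m1, m2⟩, m6, m8, m9⟩, m7⟩
  · rw [Real.rpow_zero, Nat.cast_one]
  · rw [Nat.div_one] at hpd
    exact (m5 p hp hpd).trans f2

end Pool.Agent.Lib.SLA
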