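import Pool.Agent.Lib.SLA.StmF
import Pool.Agent.Lib.EH4.Triv

/-!
MP_00e23e_nt, directory Lib/SLA (THEOREM SL, single lock), module Prs (helper57): the display with all pairs (r, q).
For every d = r q the pair with the largest error is chosen; the number of pairs is at most τ(d); Cauchy-Schwarz with
E ≤ 4x/φ(d) and ∑ τ(d)^2/φ(d) ≤ C (log x)^C.
-/

namespace Pool.Agent.Lib.SLA

open Finset Pool.Agent.Lib.EH3 Pool.Agent.Lib.TB Pool.Agent.Results.MP_00e23e_nt Pool.Agent.Lib.MI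
open Pool.Agent.Lib.MX (Bd Mz En Sp Bd_nonneg Bd_mono rp_le rn_le log_le_T Tau_x)

/-- THEOREM SL in display form, for given exponents: the sum over all pairs (r, q) with r q squarefree, x^κ-smooth and
≤ x^(1/2+δ), r in [x^l, x^l'], with the maximum over the classes b r modulo r outside the sum over q and the maxima over the
classes s(r, q) ≡ b r (mod r) modulo r q and over y(r, q) inside -/
def SlPr (δ κ l l' : ℝ) : Prop := ∀ U : ℝ, 0 < U → ∃ C : ℝ,
  ∀ (x : ℝ) (b : ℕ → ℤ) (s : ℕ × ℕ → ℤ) (y : ℕ × ℕ → ℝ) (P : Finset (ℕ × ℕ)), 3 ≤ x →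
  (∀ w ∈ P, (Squarefree (w.1 * w.2) ∧ ((w.1 * w.2 : ℕ) : ℝ) ≤ x ^ (1 / 2 + δ) ∧
    ∀ p : ℕ, p.Prime → p ∣ w.1 * w.2 → (p : ℝ) ≤ x ^ κ) ∧ (x ^ l ≤ w.1 ∧ (w.1 : ℝ) ≤ x ^ l') ∧
    Int.gcd (s w) ((w.1 * w.2 : ℕ) : ℤ) = 1 ∧ (w.1 : ℤ) ∣ s w - b w.1 ∧ 2 ≤ y w ∧ y w ≤ x) →
  ∑ w ∈ P, |resErr (y w) (w.1 * w.2) (s w)| ≤ C * (x / (Real.log x) ^ U)

private theorem Prs_count {x z : ℝ} (hx : 3 ≤ x) (hz : z ≤ x) {d : ℕ} (a : ℤ) (hd : 1 ≤ d) :
    (resCount z d a : ℝ) ≤ x / d + 1 := by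
  have hd0 : (d : ℤ) ≠ 0 := by exact_mod_cast (by omega : d ≠ 0)
  obtain ⟨b, hb⟩ := Int.eq_ofNat_of_zero_le (Int.emod_nonneg a hd0)
  have h1 : resCount z d a ≤ primeCount x d b := by
    unfold resCount primeCount
    refine Finset.card_le_card fun p hp => ?_
    rw [mem_filter, mem_Icc] at hp ⊢
    refine ⟨⟨hp.1.1, hp.1.2.trans (Nat.floor_le_floor hz)⟩, hp.2.1, ?_⟩
    have h2 : (p : ℤ) ≡ a [ZMOD d] := (Int.modEq_iff_dvd.2 (by
      have := (dvd_neg (a := (d : ℤ))).2 hp.2.2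
      rwa [neg_sub] at this))
    rw [← Int.natCast_modEq_iff]
    have h3 : ((b : ℕ) : ℤ) ≡ a [ZMOD d] := by
      have : ((b : ℕ) : ℤ) = a % d := hb.symm
      rw [this]
      exact Int.mod_modEq a d
    exact h2.trans h3.symm
  have h2 := Pool.Agent.Lib.EH4.Triv_count hx b hd
  have h3 : (resCount z d a : ℝ) ≤ (primeCount x d b : ℝ) := by exact_mod_cast h1
  exact h3.trans h2

private theorem Prs_term {x z : ℝ} (hx : 3 ≤ x) (hz2 : 2 ≤ z) (hz : z ≤ x) {d : ℕ} (a : ℤ) (hd : 1 ≤ d)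
    (hdx : (d : ℝ) ≤ x) : |resErr z d a| ≤ 4 * x * (1 / (d.totient : ℝ)) := by
  have hd1 : (1 : ℝ) ≤ (d : ℝ) := by exact_mod_cast hd
  have hd0 : (0 : ℝ) < (d : ℝ) := by linarith
  have h1 := Prs_count hx hz a hd
  have ht : (0 : ℝ) < (d.totient : ℝ) := by exact_mod_cast Nat.totient_pos.2 hd
  have htd : (d.totient : ℝ) ≤ (d : ℝ) := by exact_mod_cast Nat.totient_le d
  have h2 : (resCount z d a : ℝ) ≤ 2 * x * (1 / (d.totient : ℝ)) := by
    have h3 : (1 : ℝ) ≤ x / d := by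
      rw [le_div_iff₀ hd0]
      linarith
    have h4 : x / d ≤ x / (d.totient : ℝ) := div_le_div_of_nonneg_left (by linarith) ht htd
    have h5 : 2 * x * (1 / (d.totient : ℝ)) = x / (d.totient : ℝ) + x / (d.totient : ℝ) := by ring
    rw [h5]
    linarith
  have h3 : li z / (d.totient : ℝ) ≤ 2 * x * (1 / (d.totient : ℝ)) := by
    have h4 := Pool.Agent.Lib.EH.li_le hz2
    have h5 : 2 * x * (1 / (d.totient : ℝ)) = 2 * x / (d.totient : ℝ) := by ring
    rw [h5]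
    exact div_le_div_of_nonneg_right (by linarith) ht.le
  have h4 : 0 ≤ li z / (d.totient : ℝ) := div_nonneg (Pool.Agent.Lib.EH.li_nonneg hz2) ht.le
  have h5 : (0 : ℝ) ≤ (resCount z d a : ℝ) := Nat.cast_nonneg _
  have h6 : 0 ≤ x * (1 / (d.totient : ℝ)) := mul_nonneg (by linarith) (by positivity)
  unfold resErr
  rw [abs_le]
  constructor <;> linarith

private lemma Prs_tot (n : ℕ) (hn : Squarefree n) : (n.totient : ℝ) = ∏ p ∈ n.primeFactors, ((p : ℝ) - 1) := by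
  have h1 := Nat.totient_mul_prod_primeFactors n
  rw [Nat.prod_primeFactors_of_squarefree hn, mul_comm] at h1
  have h2 := Nat.eq_of_mul_eq_mul_left (Nat.pos_of_ne_zero hn.ne_zero) h1
  rw [h2, Nat.cast_prod]
  refine Finset.prod_congr rfl fun p hp => ?_
  rw [Nat.cast_sub (Nat.prime_of_mem_primeFactors hp).one_le, Nat.cast_one]

/-- ∑ τ(n)^2/φ(n) over squarefree n ≤ w is at most the product of 1 + 4/(p-1) -/
private lemma Prs_sum (w : ℝ) (F : Finset ℕ) (hF : ∀ n ∈ F, Squarefree n ∧ (n : ℝ) ≤ w) :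
    ∑ n ∈ F, (n.divisors.card : ℝ) ^ 2 / (n.totient : ℝ) ≤
      ∏ p ∈ (Icc 1 ⌊w⌋₊).filter Nat.Prime, (1 + 4 / ((p : ℝ) - 1)) := by
  classical
  rw [Finset.prod_one_add]
  have h1 : ∀ n ∈ F, (n.divisors.card : ℝ) ^ 2 / (n.totient : ℝ) =
      ∏ p ∈ n.primeFactors, (4 / ((p : ℝ) - 1)) := by
    intro n hn
    rw [Finset.prod_div_distrib, ← Prs_tot n (hF n hn).1, Finset.prod_const]
    congr 1
    have h2 : n.divisors.card = 2 ^ n.primeFactors.card := by
      have hn0 := (hF n hn).1.ne_zero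
      rw [Nat.card_divisors hn0, Finset.prod_congr rfl (g := fun _ => 2) (fun p hp => ?_),
        Finset.prod_const]
      have h3 := (hF n hn).1.natFactorization_le_one p
      have h4 := (Nat.prime_of_mem_primeFactors hp).factorization_pos_of_dvd hn0
        (Nat.dvd_of_mem_primeFactors hp)
      omega
    rw [h2]
    push_cast
    rw [← pow_mul, mul_comm, pow_mul]
    norm_num
  rw [Finset.sum_congr rfl h1]
  have hinj : Set.InjOn Nat.primeFactors (F : Set ℕ) := by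
    intro n hn n' hn' h
    rw [← Nat.prod_primeFactors_of_squarefree (hF n hn).1,
      ← Nat.prod_primeFactors_of_squarefree (hF n' hn').1, h]
  rw [← Finset.sum_image (f := fun S : Finset ℕ => ∏ p ∈ S, (4 / ((p : ℝ) - 1))) hinj]
  refine Finset.sum_le_sum_of_subset_of_nonneg ?_ ?_
  · intro S hS
    obtain ⟨n, hn, rfl⟩ := Finset.mem_image.1 hS
    rw [Finset.mem_powerset]
    intro p hp
    have hpp := Nat.prime_of_mem_primeFactors hp
    have h2 : (p : ℝ) ≤ w := by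
      have h3 : p ≤ n := Nat.le_of_dvd (Nat.pos_of_ne_zero (hF n hn).1.ne_zero) (Nat.dvd_of_mem_primeFactors hp)
      have h4 : (p : ℝ) ≤ (n : ℝ) := by exact_mod_cast h3
      exact h4.trans (hF n hn).2
    rw [Finset.mem_filter, Finset.mem_Icc]
    exact ⟨⟨hpp.one_le, Nat.le_floor h2⟩, hpp⟩
  · intro S hS _
    rw [Finset.mem_powerset] at hS
    refine Finset.prod_nonneg fun p hp => ?_
    have hpp := (Finset.mem_filter.1 (hS hp)).2
    have h3 : (1 : ℝ) ≤ p := by exact_mod_cast hpp.one_le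
    exact div_nonneg (by norm_num) (by linarith)

private lemma Prs_mert (C0 w : ℝ) (hw : 3 ≤ w)
    (h1 : ∑ p ∈ (Icc 1 ⌊w⌋₊).filter Nat.Prime, 1 / ((p : ℝ) - 1) ≤ C0 * (1 + Real.log (Real.log w))) :
    ∏ p ∈ (Icc 1 ⌊w⌋₊).filter Nat.Prime, (1 + 4 / ((p : ℝ) - 1)) ≤
      Real.exp (4 * C0) * (Real.log w) ^ (4 * C0) := by
  have hlw : 0 < Real.log w := Real.log_pos (by linarith)
  have hpr : ∀ p ∈ (Icc 1 ⌊w⌋₊).filter Nat.Prime, (2 : ℝ) ≤ p := by
    intro p hp
    obtain ⟨_, hb⟩ := Finset.mem_filter.1 hp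
    exact_mod_cast hb.two_le
  calc ∏ p ∈ (Icc 1 ⌊w⌋₊).filter Nat.Prime, (1 + 4 / ((p : ℝ) - 1))
      ≤ ∏ p ∈ (Icc 1 ⌊w⌋₊).filter Nat.Prime, Real.exp (4 / ((p : ℝ) - 1)) := by
        refine Finset.prod_le_prod ?_ ?_
        · intro p hp
          have ha := hpr p hp
          have : 0 ≤ 4 / ((p : ℝ) - 1) := div_nonneg (by norm_num) (by linarith)
          linarith
        · intro p _
          have := Real.add_one_le_exp (4 / ((p : ℝ) - 1))
          linarith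
    _ = Real.exp (∑ p ∈ (Icc 1 ⌊w⌋₊).filter Nat.Prime, 4 / ((p : ℝ) - 1)) := (Real.exp_sum _ _).symm
    _ ≤ Real.exp (4 * C0 + 4 * C0 * Real.log (Real.log w)) := by
        apply Real.exp_le_exp.2
        have e1 : ∑ p ∈ (Icc 1 ⌊w⌋₊).filter Nat.Prime, 4 / ((p : ℝ) - 1) =
            4 * ∑ p ∈ (Icc 1 ⌊w⌋₊).filter Nat.Prime, 1 / ((p : ℝ) - 1) := by
          rw [Finset.mul_sum]
          refine Finset.sum_congr rfl fun p _ => ?_
          ring
        rw [e1]
        linarith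
    _ = Real.exp (4 * C0) * (Real.log w) ^ (4 * C0) := by
        rw [Real.exp_add, Real.rpow_def_of_pos hlw]
        congr 2
        ring

theorem tPrs (h1 : MX.MerStmt) {δ κ l l' : ℝ} (hδ : δ ≤ 1 / 2) (h2 : SlAt δ κ l l') : SlPr δ κ l l' := by
  classical
  intro U hU
  obtain ⟨C0, hC0, hMer⟩ := h1
  obtain ⟨C1, hC1⟩ := h2 1 (2 * U + 4 * C0) one_pos (by positivity)
  refine ⟨Real.sqrt (4 * Real.exp (4 * C0) * |C1|), ?_⟩
  intro x b s y P hx hP
  have hx0 : 0 < x := by linarith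
  have hx1 : 1 ≤ x := by linarith
  have hlog : 0 < Real.log x := Real.log_pos (by linarith)
  -- the errors
  let E : ℕ × ℕ → ℝ := fun w => |resErr (y w) (w.1 * w.2) (s w)|
  have hE0 : ∀ w, 0 ≤ E w := fun w => abs_nonneg _
  let D : Finset ℕ := P.image (fun w => w.1 * w.2)
  have hex : ∀ d : ℕ, ∃ w : ℕ × ℕ, d ∈ D → (w ∈ P ∧ w.1 * w.2 = d ∧
      ∀ w' ∈ P, w'.1 * w'.2 = d → E w' ≤ E w) := by
    intro d
    by_cases hd : d ∈ D
    · obtain ⟨w0, hw0, hw0d⟩ := Finset.mem_image.1 hd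
      have hne : (P.filter (fun w => w.1 * w.2 = d)).Nonempty := ⟨w0, Finset.mem_filter.2 ⟨hw0, hw0d⟩⟩
      obtain ⟨w, hw, hmax⟩ := Finset.exists_max_image _ E hne
      rw [Finset.mem_filter] at hw
      exact ⟨w, fun _ => ⟨hw.1, hw.2, fun w' hw' hd' => hmax w' (Finset.mem_filter.2 ⟨hw', hd'⟩)⟩⟩
    · exact ⟨(0, 0), fun h => absurd h hd⟩
  choose W hW using hex
  have hDsq : ∀ d ∈ D, Squarefree d ∧ (d : ℝ) ≤ x ∧ 1 ≤ d := by
    intro d hd
    obtain ⟨a1, a2, _⟩ := hW d hd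
    obtain ⟨⟨b1, b2, _⟩, _⟩ := hP _ a1
    rw [a2] at b1 b2
    refine ⟨b1, b2.trans ?_, Nat.one_le_iff_ne_zero.2 b1.ne_zero⟩
    calc x ^ (1 / 2 + δ) ≤ x ^ (1 : ℝ) := Real.rpow_le_rpow_of_exponent_le hx1 (by linarith)
      _ = x := Real.rpow_one x
  -- the sum over the pairs
  have k1 : ∑ w ∈ P, E w ≤ ∑ d ∈ D, (d.divisors.card : ℝ) * E (W d) := by
    rw [← Finset.sum_fiberwise_of_maps_to (s := P) (t := D) (g := fun w => w.1 * w.2)
      (fun w hw => Finset.mem_image_of_mem _ hw)]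
    refine Finset.sum_le_sum fun d hd => ?_
    obtain ⟨a1, a2, a3⟩ := hW d hd
    have e1 : ∑ w ∈ P.filter (fun w => w.1 * w.2 = d), E w ≤
        ∑ _w ∈ P.filter (fun w => w.1 * w.2 = d), E (W d) := by
      refine Finset.sum_le_sum fun w hw => ?_
      rw [Finset.mem_filter] at hw
      exact a3 w hw.1 hw.2
    rw [Finset.sum_const, nsmul_eq_mul] at e1
    refine e1.trans (mul_le_mul_of_nonneg_right ?_ (hE0 _))
    have e2 : (P.filter (fun w => w.1 * w.2 = d)).card ≤ d.divisors.card := by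
      refine Finset.card_le_card_of_injOn (fun w => w.1) ?_ ?_
      · intro w hw
        have hw' := (Finset.mem_filter.1 hw).2
        have hd1 := (hDsq d hd).2.2
        exact Finset.mem_coe.2 (Nat.mem_divisors.2 ⟨⟨w.2, hw'.symm⟩, by omega⟩)
      · intro w hw w' hw' h
        have f1 := (Finset.mem_filter.1 hw).2
        have f2 := (Finset.mem_filter.1 hw').2
        have hd1 := (hDsq d hd).2.2
        have f0 : 0 < w.1 := by
          rcases Nat.eq_zero_or_pos w.1 with h0 | h0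
          · rw [h0, Nat.zero_mul] at f1
            omega
          · exact h0
        have f3 : w.1 * w.2 = w.1 * w'.2 := by
          have h' : w.1 = w'.1 := h
          rw [f1, h', f2]
        exact Prod.ext h (Nat.eq_of_mul_eq_mul_left f0 f3)
    exact_mod_cast e2
  -- the theorem for one divisor
  let y' : ℕ → ℝ := fun d => if d ∈ D then y (W d) else 2
  have k2 : ∑ d ∈ D, E (W d) ≤ C1 * (x / (Real.log x) ^ (2 * U + 4 * C0)) := by
    have f1 := hC1 x (fun d => s (W d)) (fun d => (W d).1) (fun _ => 0) y' D hx ?_ ?_ ?_ ?_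
    · refine le_trans (le_of_eq ?_) f1
      refine Finset.sum_congr rfl fun d hd => ?_
      obtain ⟨a1, a2, _⟩ := hW d hd
      show |resErr (y (W d)) ((W d).1 * (W d).2) (s (W d))| = |resErr (y' d) d (s (W d))|
      have f2 : y' d = y (W d) := if_pos hd
      rw [f2, a2]
    · have f2 : ((D.image (fun _ => 0)).card : ℝ) ≤ 1 := by
        have f3 : (D.image (fun _ : ℕ => 0)).card ≤ 1 := by
          refine (Finset.card_le_card (t := {0}) ?_).trans (by simp)
          intro k hk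
          obtain ⟨_, _, h⟩ := Finset.mem_image.1 hk
          rw [Finset.mem_singleton, ← h]
        exact_mod_cast f3
      refine f2.trans ?_
      unfold MX.En
      refine Real.one_le_exp (div_nonneg (by positivity) (Real.log_nonneg ?_))
      have f4 : Real.exp 1 ≤ x := by
        have := Real.exp_one_lt_d9
        linarith
      exact (Real.le_log_iff_exp_le hx0).2 f4
    · intro d
      by_cases hd : d ∈ D
      · have f2 : y' d = y (W d) := if_pos hd
        rw [f2]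
        exact (hP _ (hW d hd).1).2.2.2.2
      · have f2 : y' d = 2 := if_neg hd
        rw [f2]
        exact ⟨le_rfl, by linarith⟩
    · intro d hd
      obtain ⟨a1, a2, _⟩ := hW d hd
      obtain ⟨⟨b1, b2, b3⟩, b4, b5, b6, b7⟩ := hP _ a1
      rw [a2] at b1 b2 b3 b5
      exact ⟨⟨b1, b2, b3, b5⟩, ⟨(W d).2, a2.symm⟩, b4.1, b4.2⟩
    · intro d hd d' hd' _ hr
      have g1 := (hP _ (hW d hd).1).2.2.2.1
      have g2 := (hP _ (hW d' hd').1).2.2.2.1
      have hr' : (W d).1 = (W d').1 := hr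
      rw [← hr'] at g2
      have g3 := dvd_sub g1 g2
      have g4 : s (W d) - b (W d).1 - (s (W d') - b (W d).1) = s (W d) - s (W d') := by ring
      rw [g4] at g3
      exact g3
  have k3 : ∑ d ∈ D, (d.divisors.card : ℝ) ^ 2 * E (W d) ≤
      4 * x * (Real.exp (4 * C0) * (Real.log x) ^ (4 * C0)) := by
    have g1 : ∀ d ∈ D, (d.divisors.card : ℝ) ^ 2 * E (W d) ≤
        4 * x * ((d.divisors.card : ℝ) ^ 2 / (d.totient : ℝ)) := by
      intro d hd
      obtain ⟨a1, a2, _⟩ := hW d hd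
      obtain ⟨_, _, _, _, b7⟩ := hP _ a1
      have g2 : E (W d) ≤ 4 * x * (1 / (d.totient : ℝ)) := by
        show |resErr (y (W d)) ((W d).1 * (W d).2) (s (W d))| ≤ _
        rw [a2]
        exact Prs_term hx b7.1 b7.2 (s (W d)) (hDsq d hd).2.2 (hDsq d hd).2.1
      calc (d.divisors.card : ℝ) ^ 2 * E (W d) ≤ (d.divisors.card : ℝ) ^ 2 * (4 * x * (1 / (d.totient : ℝ))) :=
            mul_le_mul_of_nonneg_left g2 (by positivity)
        _ = 4 * x * ((d.divisors.card : ℝ) ^ 2 / (d.totient : ℝ)) := by ring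
    refine (Finset.sum_le_sum g1).trans ?_
    rw [← Finset.mul_sum]
    refine mul_le_mul_of_nonneg_left ?_ (by linarith)
    exact (Prs_sum x D (fun d hd => ⟨(hDsq d hd).1, (hDsq d hd).2.1⟩)).trans
      (Prs_mert C0 x hx (hMer x hx).1)
  -- Cauchy-Schwarz
  have k4 : (∑ d ∈ D, (d.divisors.card : ℝ) * E (W d)) ^ 2 ≤
      (∑ d ∈ D, (d.divisors.card : ℝ) ^ 2 * E (W d)) * ∑ d ∈ D, E (W d) := by
    have g1 := Finset.sum_mul_sq_le_sq_mul_sq D (fun d => (d.divisors.card : ℝ) * Real.sqrt (E (W d)))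
      (fun d => Real.sqrt (E (W d)))
    have g2 : ∀ d, Real.sqrt (E (W d)) * Real.sqrt (E (W d)) = E (W d) := fun d => Real.mul_self_sqrt (hE0 _)
    have g3 : ∀ d, (d.divisors.card : ℝ) * Real.sqrt (E (W d)) * Real.sqrt (E (W d)) =
        (d.divisors.card : ℝ) * E (W d) := by
      intro d
      rw [mul_assoc, g2]
    have g4 : ∀ d, ((d.divisors.card : ℝ) * Real.sqrt (E (W d))) ^ 2 = (d.divisors.card : ℝ) ^ 2 * E (W d) := by
      intro d
      rw [mul_pow, Real.sq_sqrt (hE0 _)]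
    have g5 : ∀ d, (Real.sqrt (E (W d))) ^ 2 = E (W d) := fun d => Real.sq_sqrt (hE0 _)
    rw [Finset.sum_congr rfl (fun d _ => g3 d), Finset.sum_congr rfl (fun d _ => g4 d),
      Finset.sum_congr rfl (fun d _ => g5 d)] at g1
    exact g1
  have hLU : 0 < (Real.log x) ^ U := Real.rpow_pos_of_pos hlog _
  have hLC : 0 < (Real.log x) ^ (4 * C0) := Real.rpow_pos_of_pos hlog _
  have k5 : ∑ d ∈ D, E (W d) ≤ |C1| * (x / (Real.log x) ^ (2 * U + 4 * C0)) :=
    k2.trans (mul_le_mul_of_nonneg_right (le_abs_self _) (by positivity))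
  have k6 : (∑ w ∈ P, E w) ^ 2 ≤ (4 * Real.exp (4 * C0) * |C1|) * (x / (Real.log x) ^ U) ^ 2 := by
    have g0 : 0 ≤ ∑ w ∈ P, E w := Finset.sum_nonneg fun w _ => hE0 w
    have g1 : (∑ w ∈ P, E w) ^ 2 ≤ (∑ d ∈ D, (d.divisors.card : ℝ) * E (W d)) ^ 2 := pow_le_pow_left₀ g0 k1 2
    refine (g1.trans k4).trans ?_
    have g2 : 0 ≤ ∑ d ∈ D, E (W d) := Finset.sum_nonneg fun d _ => hE0 _
    refine (mul_le_mul k3 k5 g2 (by positivity)).trans (le_of_eq ?_)
    have g3 : (Real.log x) ^ (2 * U + 4 * C0) = (Real.log x) ^ U * (Real.log x) ^ U * (Real.log x) ^ (4 * C0) := by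
      rw [← Real.rpow_add hlog, ← Real.rpow_add hlog]
      congr 1
      ring
    rw [g3]
    field_simp
  have k7 : 0 ≤ x / (Real.log x) ^ U := by positivity
  have k8 : ∑ w ∈ P, E w ≤ Real.sqrt ((4 * Real.exp (4 * C0) * |C1|) * (x / (Real.log x) ^ U) ^ 2) :=
    Real.le_sqrt_of_sq_le k6
  rw [Real.sqrt_mul (by positivity), Real.sqrt_sq k7] at k8
  exact k8

end Pool.Agent.Lib.SLA
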