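import Pool.Agent.Lib.SLA.StmK

/-!
MP_00e23e_nt, directory Lib/SLA (THEOREM SL, phase 2, x^c classes), module Rok (helper57): the theorem with a power saving for
moduli r q whose primes outside a divisor t ≤ x^τ are > z. From FpsStmt; for every d = r q the pair with the largest term is
chosen, the number of pairs is at most τ(d) ≤ T.
-/

namespace Pool.Agent.Lib.SLA

open Finset Pool.Agent.Lib.EH3 Pool.Agent.Lib.TB Pool.Agent.Results.MP_00e23e_nt Pool.Agent.Lib.MI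
open Pool.Agent.Lib.MX (Bd Mz En Sp Bd_nonneg Bd_mono rp_le rn_le log_le_T Tau_x)

/-- THEOREM SL, x^c classes, with a power of z: the pairs w = (r, q) of the type Pw with a divisor t w ≤ x^τ of r q such that all
primes of r q / t w are > z; df y d t s = π(y; d, s) - π(y; t, s)/φ(d/t) -/
def SlRk (c δ μ κ l l' τ : ℝ) : Prop := ∃ η A C : ℝ, 0 < η ∧ 0 ≤ A ∧ 0 ≤ C ∧
  ∀ (x z : ℝ) (s : ℕ × ℕ → ℤ) (y : ℕ × ℕ → ℝ) (t : ℕ × ℕ → ℕ) (P : Finset (ℕ × ℕ)), 3 ≤ x → 1 ≤ z → z ≤ x →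
  (∀ w ∈ P, Pw δ μ κ l l' x (s w) (y w) w ∧ t w ∣ w.1 * w.2 ∧ (t w : ℝ) ≤ x ^ τ ∧
    ∀ p : ℕ, p.Prime → p ∣ w.1 * w.2 / t w → z < (p : ℝ)) →
  (∀ r : ℕ, (((P.filter (fun w => w.1 = r)).image (fun w => s w % (r : ℤ))).card : ℝ) ≤ x ^ c) →
  ∑ w ∈ P, |df (y w) (w.1 * w.2) (t w) (s w)| ≤ C * (x * En A x / z ^ η)

private lemma Rok_En_one {A x : ℝ} (hA : 0 ≤ A) (hx : 3 ≤ x) : 1 ≤ En A x := by
  unfold MX.En
  have hx0 : 0 < x := by linarith
  have hl : 0 ≤ Real.log x := Real.log_nonneg (by linarith)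
  refine Real.one_le_exp (div_nonneg (mul_nonneg hA hl) (Real.log_nonneg ?_))
  have f4 : Real.exp 1 ≤ x := by
    have := Real.exp_one_lt_d9
    linarith
  exact (Real.le_log_iff_exp_le hx0).2 f4

private lemma Rok_En_pow (a x : ℝ) (n : ℕ) : (En a x) ^ n = En (a * n) x := by
  unfold MX.En
  rw [← Real.exp_nat_mul]
  congr 1
  ring

private lemma Rok_count (y : ℝ) (hy : 0 ≤ y) (d : ℕ) (s : ℤ) : (resCount y d s : ℝ) ≤ y := by
  unfold resCount
  have h1 : ((Icc 1 ⌊y⌋₊).filter (fun p : ℕ => p.Prime ∧ (d : ℤ) ∣ (p : ℤ) - s)).card ≤ ⌊y⌋₊ := by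
    refine (card_filter_le _ _).trans ?_
    simp
  have h2 : (((Icc 1 ⌊y⌋₊).filter (fun p : ℕ => p.Prime ∧ (d : ℤ) ∣ (p : ℤ) - s)).card : ℝ) ≤ (⌊y⌋₊ : ℝ) := by
    exact_mod_cast h1
  exact h2.trans (Nat.floor_le hy)

private lemma Rok_df {y x : ℝ} (hy : 2 ≤ y) (hyx : y ≤ x) (d t : ℕ) (s : ℤ) : |df y d t s| ≤ 2 * x := by
  have a1 := Rok_count y (by linarith) d s
  have a2 := Rok_count y (by linarith) t s
  have a3 : (0 : ℝ) ≤ (resCount y d s : ℝ) := Nat.cast_nonneg _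
  have a4 : (0 : ℝ) ≤ (resCount y t s : ℝ) := Nat.cast_nonneg _
  have a5 : (resCount y t s : ℝ) / ((d / t).totient : ℝ) ≤ (resCount y t s : ℝ) := by
    rcases Nat.eq_zero_or_pos (d / t).totient with h | h
    · rw [h, Nat.cast_zero, div_zero]
      exact a4
    · exact div_le_self a4 (by exact_mod_cast h)
  have a6 : 0 ≤ (resCount y t s : ℝ) / ((d / t).totient : ℝ) := div_nonneg a4 (Nat.cast_nonneg _)
  unfold df
  rw [abs_le]
  constructor <;> linarith

/-- Uses: FpsStmt, MX.WigStmt. -/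
theorem tRok (h1 : FpsStmt) (h2 : MX.WigStmt) {c δ μ κ l l' τ : ℝ} (_hδ : 0 ≤ δ) (hδ1 : δ ≤ 1 / 10) (hτ : 0 ≤ τ)
    (hτ1 : τ ≤ 1 / 3) (hcore : CoreStmt (Lkc c μ κ l l') (1 / 2 + δ) τ) : SlRk c δ μ κ l l' τ := by
  classical
  obtain ⟨η, C1, x1, A0, hη, hη1, hC1, hx1, H1⟩ := h1 (Lkc c μ κ l l') (1 / 2 + δ) τ (by linarith) hτ hτ1 hcore
  obtain ⟨xW, hxW, H2⟩ := h2
  set x2 : ℝ := max x1 xW with hx2
  have hx21 : x1 ≤ x2 := le_max_left _ _
  have hx2W : xW ≤ x2 := le_max_right _ _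
  have hA : (0 : ℝ) ≤ 60 * ((A0 + 1 : ℕ) : ℝ) := by positivity
  refine ⟨η, 60 * ((A0 + 1 : ℕ) : ℝ), C1 + 2 * x2 ^ 3, hη, hA, by positivity, ?_⟩
  intro x z s y t P hx hz hzx hP0 hlock
  have hx0 : 0 < x := by linarith
  have hx1' : 1 ≤ x := by linarith
  have hz0 : 0 < z := by linarith
  have hEn := Rok_En_one hA hx
  have hzη : 0 < z ^ η := Real.rpow_pos_of_pos hz0 _
  -- the errors
  let E : ℕ × ℕ → ℝ := fun w => |df (y w) (w.1 * w.2) (t w) (s w)|
  have hE0 : ∀ w, 0 ≤ E w := fun w => abs_nonneg _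
  have hdx : ∀ w ∈ P, 1 ≤ w.1 * w.2 ∧ ((w.1 * w.2 : ℕ) : ℝ) ≤ x := by
    intro w hw
    obtain ⟨⟨a1, a2, _⟩, _⟩ := (hP0 w hw).1
    refine ⟨Nat.one_le_iff_ne_zero.2 a1.ne_zero, a2.trans ?_⟩
    calc x ^ (1 / 2 + δ) ≤ x ^ (1 : ℝ) := Real.rpow_le_rpow_of_exponent_le hx1' (by linarith)
      _ = x := Real.rpow_one x
  have hbase : 1 ≤ x * En (60 * ((A0 + 1 : ℕ) : ℝ)) x / z ^ η := by
    rw [le_div_iff₀ hzη, one_mul]
    calc z ^ η ≤ x ^ η := Real.rpow_le_rpow hz0.le hzx hη.le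
      _ ≤ x ^ (1 : ℝ) := Real.rpow_le_rpow_of_exponent_le hx1' (by linarith)
      _ = x * 1 := by rw [Real.rpow_one, mul_one]
      _ ≤ x * En (60 * ((A0 + 1 : ℕ) : ℝ)) x := mul_le_mul_of_nonneg_left hEn hx0.le
  have hb0 : 0 ≤ x * En (60 * ((A0 + 1 : ℕ) : ℝ)) x / z ^ η := by linarith
  by_cases hxx : x2 ≤ x
  · have hT := H2 x (hx2W.trans hxx)
    have hT1 : 1 ≤ En 60 x := hT.1
    have hex0 : ∀ w : ℕ × ℕ, ∃ m : ℕ, w ∈ P → (m ∣ w.1 ∧ (m : ℝ) ≤ x ^ μ ∧
        ∀ p : ℕ, p.Prime → p ∣ w.1 * w.2 / m → (p : ℝ) ≤ x ^ κ) := by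
      intro w
      by_cases hw : w ∈ P
      · obtain ⟨⟨_, _, m, hm⟩, _⟩ := (hP0 w hw).1
        exact ⟨m, fun _ => hm⟩
      · exact ⟨0, fun h => absurd h hw⟩
    choose mm hmm using hex0
    let D : Finset ℕ := P.image (fun w => w.1 * w.2)
    have hex : ∀ d : ℕ, ∃ w : ℕ × ℕ, d ∈ D → (w ∈ P ∧ w.1 * w.2 = d ∧
        ∀ w' ∈ P, w'.1 * w'.2 = d → E w' ≤ E w) := by
      intro d
      by_cases hd : d ∈ D
      · obtain ⟨w0, hw0, hw0d⟩ := Finset.mem_image.1 hd
        have hne : (P.filter (fun w => w.1 * w.2 = d)).Nonempty := ⟨w0, Finset.mem_filter.2 ⟨hw0, hw0d⟩⟩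
        obtain ⟨w, hw, hmax⟩ := Finset.exists_max_image _ E hne
        rw [Finset.mem_filter] at hw
        exact ⟨w, fun _ => ⟨hw.1, hw.2, fun w' hw' hd' => hmax w' (Finset.mem_filter.2 ⟨hw', hd'⟩)⟩⟩
      · exact ⟨(0, 0), fun h => absurd h hd⟩
    choose W hW using hex
    have hD1 : ∀ d ∈ D, 1 ≤ d ∧ (d : ℝ) ≤ x := by
      intro d hd
      obtain ⟨a1, a2, _⟩ := hW d hd
      have a3 := hdx _ a1
      rw [a2] at a3
      exact a3
    -- the sum over the pairs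
    have k1 : ∑ w ∈ P, E w ≤ En 60 x * ∑ d ∈ D, E (W d) := by
      rw [← Finset.sum_fiberwise_of_maps_to (s := P) (t := D) (g := fun w => w.1 * w.2)
        (fun w hw => Finset.mem_image_of_mem _ hw), Finset.mul_sum]
      refine Finset.sum_le_sum fun d hd => ?_
      obtain ⟨a1, a2, a3⟩ := hW d hd
      have e1 : ∑ w ∈ P.filter (fun w => w.1 * w.2 = d), E w ≤
          ∑ _w ∈ P.filter (fun w => w.1 * w.2 = d), E (W d) := by
        refine Finset.sum_le_sum fun w hw => ?_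
        rw [Finset.mem_filter] at hw
        exact a3 w hw.1 hw.2
      rw [Finset.sum_const, nsmul_eq_mul] at e1
      refine e1.trans (mul_le_mul_of_nonneg_right ?_ (hE0 _))
      have e2 : (P.filter (fun w => w.1 * w.2 = d)).card ≤ d.divisors.card := by
        refine Finset.card_le_card_of_injOn (fun w => w.1) ?_ ?_
        · intro w hw
          have hw' := (Finset.mem_filter.1 hw).2
          have hd1 := (hD1 d hd).1
          exact Finset.mem_coe.2 (Nat.mem_divisors.2 ⟨⟨w.2, hw'.symm⟩, by omega⟩)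
        · intro w hw w' hw' h
          have f1 := (Finset.mem_filter.1 hw).2
          have f2 := (Finset.mem_filter.1 hw').2
          have hd1 := (hD1 d hd).1
          have f0 : 0 < w.1 := by
            rcases Nat.eq_zero_or_pos w.1 with h0 | h0
            · rw [h0, Nat.zero_mul] at f1
              omega
            · exact h0
          have f3 : w.1 * w.2 = w.1 * w'.2 := by
            have h' : w.1 = w'.1 := h
            rw [f1, h', f2]
          exact Prod.ext h (Nat.eq_of_mul_eq_mul_left f0 f3)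
      have e3 : ((P.filter (fun w => w.1 * w.2 = d)).card : ℝ) ≤ (d.divisors.card : ℝ) := by exact_mod_cast e2
      refine e3.trans ((Tau_x hx1' hT).2.2 d (hD1 d hd).1 (hD1 d hd).2)
    -- the theorem for one divisor
    let y' : ℕ → ℝ := fun d => if d ∈ D then y (W d) else 2
    have k2 : ∑ d ∈ D, E (W d) ≤ Bd C1 A0 η x (En 60 x) z := by
      have f1 := H1 x (En 60 x) z (fun d => s (W d)) (fun d => t (W d)) (fun _ => 0) y' D (hx21.trans hxx) hT hz hzx
        ?_ ?_ ?_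
      · have f2 : ((D.image (fun _ : ℕ => (0 : ℕ))).card : ℝ) ≤ 1 := by
          have f3 : (D.image (fun _ : ℕ => (0 : ℕ))).card ≤ 1 := by
            refine (Finset.card_le_card (t := {0}) ?_).trans (by simp)
            intro k hk
            obtain ⟨_, _, h⟩ := Finset.mem_image.1 hk
            rw [Finset.mem_singleton, ← h]
          exact_mod_cast f3
        have f4 : 0 ≤ Bd C1 A0 η x (En 60 x) z := Bd_nonneg hC1 hT1 hx0.le hz
        calc ∑ d ∈ D, E (W d) = ∑ d ∈ D, |df (y' d) d (t (W d)) (s (W d))| := by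
              refine Finset.sum_congr rfl fun d hd => ?_
              obtain ⟨a1, a2, _⟩ := hW d hd
              show |df (y (W d)) ((W d).1 * (W d).2) (t (W d)) (s (W d))| = |df (y' d) d (t (W d)) (s (W d))|
              have f2 : y' d = y (W d) := if_pos hd
              rw [f2, a2]
          _ ≤ ((D.image (fun _ : ℕ => (0 : ℕ))).card : ℝ) * Bd C1 A0 η x (En 60 x) z := f1
          _ ≤ 1 * Bd C1 A0 η x (En 60 x) z := mul_le_mul_of_nonneg_right f2 f4
          _ = Bd C1 A0 η x (En 60 x) z := one_mul _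
      · intro d
        by_cases hd : d ∈ D
        · have f2 : y' d = y (W d) := if_pos hd
          rw [f2]
          exact (hP0 _ (hW d hd).1).1.2.2.2
        · have f2 : y' d = 2 := if_neg hd
          rw [f2]
          exact ⟨le_rfl, by linarith⟩
      · intro d hd
        obtain ⟨a1, a2, _⟩ := hW d hd
        obtain ⟨⟨⟨b1, b2, _⟩, _, b5, _⟩, c1, c2, c3⟩ := hP0 _ a1
        rw [a2] at b1 b2 b5 c1 c3
        exact ⟨⟨b1, c1, b2, c2, c3⟩, b5⟩
      · intro w
        refine ⟨fun d => (W d).1, fun d => mm (W d), fun d hd => ?_, fun r0 => le_trans ?_ (hlock r0)⟩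
        · rw [Finset.mem_filter] at hd
          obtain ⟨a1, a2, _⟩ := hW d hd.1
          obtain ⟨⟨_, b4, _, _⟩, _⟩ := hP0 _ a1
          have b3 := hmm _ a1
          rw [a2] at b3
          exact ⟨b3, ⟨(W d).2, a2.symm⟩, b4.1, b4.2⟩
        · have f3 : (((D.filter (fun d => (fun _ => 0) d = w)).filter (fun d => (W d).1 = r0)).image
              (fun d => s (W d) % (r0 : ℤ))) ⊆
              ((P.filter (fun w => w.1 = r0)).image (fun w => s w % (r0 : ℤ))) := by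
            intro k hk
            obtain ⟨d, hd, h⟩ := Finset.mem_image.1 hk
            rw [Finset.mem_filter, Finset.mem_filter] at hd
            rw [← h]
            exact Finset.mem_image.2 ⟨W d, Finset.mem_filter.2 ⟨(hW d hd.1.1).1, hd.2⟩, rfl⟩
          exact_mod_cast Finset.card_le_card f3
    have k3 : En 60 x * Bd C1 A0 η x (En 60 x) z = C1 * (x * En (60 * ((A0 + 1 : ℕ) : ℝ)) x / z ^ η) := by
      rw [← Rok_En_pow]
      unfold MX.Bd
      rw [pow_succ]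
      ring
    calc ∑ w ∈ P, E w ≤ En 60 x * ∑ d ∈ D, E (W d) := k1
      _ ≤ En 60 x * Bd C1 A0 η x (En 60 x) z := mul_le_mul_of_nonneg_left k2 (by linarith)
      _ = C1 * (x * En (60 * ((A0 + 1 : ℕ) : ℝ)) x / z ^ η) := k3
      _ ≤ (C1 + 2 * x2 ^ 3) * (x * En (60 * ((A0 + 1 : ℕ) : ℝ)) x / z ^ η) := by
        refine mul_le_mul_of_nonneg_right ?_ hb0
        have : 0 ≤ 2 * x2 ^ 3 := by positivity
        linarith
  · push Not at hxx
    have hsub : P ⊆ (Icc 1 ⌊x2⌋₊) ×ˢ (Icc 1 ⌊x2⌋₊) := by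
      intro w hw
      obtain ⟨a1, a2⟩ := hdx w hw
      have b1 : 0 < w.1 := Nat.pos_of_mul_pos_right (by omega : 0 < w.1 * w.2)
      have b2 : 0 < w.2 := Nat.pos_of_mul_pos_left (by omega : 0 < w.1 * w.2)
      have b3 : w.1 ≤ w.1 * w.2 := Nat.le_mul_of_pos_right _ b2
      have b4 : w.2 ≤ w.1 * w.2 := Nat.le_mul_of_pos_left _ b1
      have b5 : w.1 * w.2 ≤ ⌊x2⌋₊ := Nat.le_floor (a2.trans hxx.le)
      rw [Finset.mem_product, Finset.mem_Icc, Finset.mem_Icc]
      exact ⟨⟨b1, b3.trans b5⟩, ⟨b2, b4.trans b5⟩⟩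
    have hx20 : 0 ≤ x2 := by linarith
    have hc : (P.card : ℝ) ≤ x2 ^ 2 := by
      have c1 : P.card ≤ ⌊x2⌋₊ * ⌊x2⌋₊ := by
        have := Finset.card_le_card hsub
        rwa [Finset.card_product, Nat.card_Icc, Nat.add_sub_cancel] at this
      have c2 : (P.card : ℝ) ≤ (⌊x2⌋₊ : ℝ) * (⌊x2⌋₊ : ℝ) := by exact_mod_cast c1
      have c3 : (⌊x2⌋₊ : ℝ) ≤ x2 := Nat.floor_le hx20
      have c4 : (0 : ℝ) ≤ (⌊x2⌋₊ : ℝ) := Nat.cast_nonneg _
      nlinarith
    calc ∑ w ∈ P, E w ≤ ∑ _w ∈ P, 2 * x2 := by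
          refine Finset.sum_le_sum fun w hw => ?_
          have h3 := (hP0 w hw).1.2.2.2
          exact (Rok_df h3.1 h3.2 _ _ _).trans (by linarith)
      _ = P.card * (2 * x2) := by rw [Finset.sum_const, nsmul_eq_mul]
      _ ≤ x2 ^ 2 * (2 * x2) := mul_le_mul_of_nonneg_right hc (by linarith)
      _ = 2 * x2 ^ 3 := by ring
      _ ≤ (C1 + 2 * x2 ^ 3) * 1 := by linarith
      _ ≤ (C1 + 2 * x2 ^ 3) * (x * En (60 * ((A0 + 1 : ℕ) : ℝ)) x / z ^ η) :=
        mul_le_mul_of_nonneg_left hbase (by positivity)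

/-- the power saving: all primes of r q / t w are > x^ε -/
theorem SlRk.power {c δ μ κ l l' τ : ℝ} (h : SlRk c δ μ κ l l' τ) : ∀ ε : ℝ, 0 < ε → ∃ η C : ℝ, 0 < η ∧
    ∀ (x : ℝ) (s : ℕ × ℕ → ℤ) (y : ℕ × ℕ → ℝ) (t : ℕ × ℕ → ℕ) (P : Finset (ℕ × ℕ)), 3 ≤ x →
    (∀ w ∈ P, Pw δ μ κ l l' x (s w) (y w) w ∧ t w ∣ w.1 * w.2 ∧ (t w : ℝ) ≤ x ^ τ ∧
      ∀ p : ℕ, p.Prime → p ∣ w.1 * w.2 / t w → x ^ ε < (p : ℝ)) →
    (∀ r : ℕ, (((P.filter (fun w => w.1 = r)).image (fun w => s w % (r : ℤ))).card : ℝ) ≤ x ^ c) →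
    ∑ w ∈ P, |df (y w) (w.1 * w.2) (t w) (s w)| ≤ C * x ^ (1 - η) := by
  intro ε hε
  obtain ⟨η, A, C, hη, hA, hC, H⟩ := h
  set e : ℝ := min ε 1 with he
  have he0 : 0 < e := lt_min hε one_pos
  have he1 : e ≤ 1 := min_le_right _ _
  have hee : e ≤ ε := min_le_left _ _
  set L0 : ℝ := 2 * A / (e * η) with hL0
  have hL00 : 0 ≤ L0 := by positivity
  -- En A x ≤ B x^(e η/2)
  set B : ℝ := Real.exp (A * Real.exp L0 / Real.log (Real.log 3)) with hB
  have hlog3 : 0 < Real.log (Real.log 3) := by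
    refine Real.log_pos ?_
    rw [Real.lt_log_iff_exp_lt (by norm_num)]
    have := Real.exp_one_lt_d9
    linarith
  have hB1 : 1 ≤ B := Real.one_le_exp (by positivity)
  have hEn : ∀ x : ℝ, 3 ≤ x → En A x ≤ B * x ^ (e * η / 2) := by
    intro x hx
    have hx0 : 0 < x := by linarith
    have hl3 : Real.log 3 ≤ Real.log x := Real.log_le_log (by norm_num) hx
    have hl30 : 0 < Real.log 3 := Real.log_pos (by norm_num)
    have hll : Real.log (Real.log 3) ≤ Real.log (Real.log x) := Real.log_le_log hl30 hl3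
    have hlx : 0 < Real.log x := by linarith
    have hllx : 0 < Real.log (Real.log x) := by linarith
    have hxp : 1 ≤ x ^ (e * η / 2) := Real.one_le_rpow (by linarith) (by positivity)
    by_cases hc : L0 ≤ Real.log (Real.log x)
    · have h1 : En A x ≤ x ^ (e * η / 2) := by
        unfold MX.En
        rw [Real.rpow_def_of_pos hx0]
        refine Real.exp_le_exp.2 ?_
        rw [div_le_iff₀ hllx]
        have h2 : A = L0 * (e * η / 2) := by
          rw [hL0]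
          field_simp
        have h3 : A ≤ Real.log (Real.log x) * (e * η / 2) := by
          calc A = L0 * (e * η / 2) := h2
            _ ≤ Real.log (Real.log x) * (e * η / 2) := mul_le_mul_of_nonneg_right hc (by positivity)
        calc A * Real.log x ≤ Real.log (Real.log x) * (e * η / 2) * Real.log x :=
              mul_le_mul_of_nonneg_right h3 hlx.le
          _ = Real.log x * (e * η / 2) * Real.log (Real.log x) := by ring
      calc En A x ≤ x ^ (e * η / 2) := h1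
        _ = 1 * x ^ (e * η / 2) := (one_mul _).symm
        _ ≤ B * x ^ (e * η / 2) := mul_le_mul_of_nonneg_right hB1 (by linarith)
    · push Not at hc
      have h1 : Real.log x ≤ Real.exp L0 := by
        rw [← Real.exp_log hlx]
        exact Real.exp_le_exp.2 hc.le
      have h2 : En A x ≤ B := by
        unfold MX.En
        refine Real.exp_le_exp.2 ?_
        exact div_le_div₀ (by positivity) (mul_le_mul_of_nonneg_left h1 hA) hlog3 hll
      calc En A x ≤ B := h2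
        _ = B * 1 := (mul_one _).symm
        _ ≤ B * x ^ (e * η / 2) := mul_le_mul_of_nonneg_left hxp (by linarith)
  refine ⟨e * η / 2, C * B, by positivity, ?_⟩
  intro x s y t P hx hP hlock
  have hx0 : 0 < x := by linarith
  have hx1 : 1 ≤ x := by linarith
  have h1 := H x (x ^ e) s y t P hx (Real.one_le_rpow hx1 he0.le)
    (by
      calc x ^ e ≤ x ^ (1 : ℝ) := Real.rpow_le_rpow_of_exponent_le hx1 he1
        _ = x := Real.rpow_one x)
    (fun w hw => by
      obtain ⟨a1, a2, a3, a4⟩ := hP w hw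
      exact ⟨a1, a2, a3, fun p hp hpd => lt_of_le_of_lt (Real.rpow_le_rpow_of_exponent_le hx1 hee) (a4 p hp hpd)⟩)
    hlock
  refine h1.trans ?_
  rw [mul_assoc]
  refine mul_le_mul_of_nonneg_left ?_ hC
  rw [← Real.rpow_mul hx0.le, div_le_iff₀ (Real.rpow_pos_of_pos hx0 _), mul_assoc, ← Real.rpow_add hx0]
  calc x * En A x ≤ x * (B * x ^ (e * η / 2)) := mul_le_mul_of_nonneg_left (hEn x hx) hx0.le
    _ = B * (x ^ (1 : ℝ) * x ^ (e * η / 2)) := by
      rw [Real.rpow_one]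
      ring
    _ = B * x ^ (1 - e * η / 2 + e * η) := by
      rw [← Real.rpow_add hx0]
      congr 2
      ring

end Pool.Agent.Lib.SLA
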