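import Pool.Agent.Lib.MX.Stm

/-!
MP_00e23e_nt, directory Lib/SLA (THEOREM SL, single lock; chapters A and F, helper90): from a bilinear theorem to the primes, for
an arbitrary hypothesis Φ x a t F on the classes a q of the moduli q ∈ F (copies of Lib/MX with MS.Nst replaced by Φ).
-/

namespace Pool.Agent.Lib.SLA

open Finset Pool.Agent.Lib.EH3 Pool.Agent.Lib.TB Pool.Agent.Results.MP_00e23e_nt Pool.Agent.Lib.MI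
open Pool.Agent.Lib.MX (Bd Mz En Sp Bd_nonneg Bd_mono rp_le rn_le log_le_T Tau_x)

/-- a hypothesis on x, the classes a, the divisors t and the set F of moduli -/
abbrev Hyp := ℝ → (ℕ → ℤ) → (ℕ → ℕ) → Finset ℕ → Prop

/-- Chapter B. The bilinear theorem for the moduli Mz, variables ≥ x^(1/3-ε), product ≥ x^(1-ε). -/
def BlStmt (Φ : Hyp) (α τ ε : ℝ) : Prop := ∃ (η C x0 : ℝ) (A0 : ℕ), 0 < η ∧ 0 ≤ C ∧ ∀ (x T z : ℝ) (a : ℕ → ℤ)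
    (M N : ℕ) (f g : ℕ → ℂ) (F : Finset ℕ) (t : ℕ → ℕ), x0 ≤ x → Tau (x ^ (30 : ℝ)) T → 1 ≤ z →
  z ≤ x → x ^ ((1 : ℝ) / 3 - ε) ≤ N →
  x ^ ((1 : ℝ) / 3 - ε) ≤ M → x ^ (1 - ε) ≤ (M : ℝ) * N → (M : ℝ) * N ≤ x → (∀ m, ‖f m‖ ≤ 1) → (∀ n, ‖g n‖ ≤ 1) →
  (∀ q ∈ F, Mz α τ z x (t q) q ∧ Int.gcd (a q) q = 1) → Φ x a t F →
  ∑ q ∈ F, ‖∑ m ∈ Ioc M (2 * M), ∑ n ∈ Ioc N (2 * N), f m * g n * Ek (a q) (t q) q (m * n)‖ ≤ Bd C A0 η x T z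

/-- Chapter A. The theorem for the von Mangoldt function, one class function and one Y ≤ x. -/
def CoreStmt (Φ : Hyp) (α τ : ℝ) : Prop := ∃ (η C x0 : ℝ) (A0 : ℕ), 0 < η ∧ 0 ≤ C ∧ ∀ (x T z : ℝ) (a : ℕ → ℤ)
    (Y : ℕ) (F : Finset ℕ) (t : ℕ → ℕ), x0 ≤ x → Tau (x ^ (30 : ℝ)) T → 1 ≤ z → z ≤ x → (Y : ℝ) ≤ x →
  (∀ q ∈ F, Mz α τ z x (t q) q ∧ Int.gcd (a q) q = 1) → Φ x a t F →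
  ∑ q ∈ F, ‖∑ n ∈ Icc 1 Y, (ArithmeticFunction.vonMangoldt n : ℂ) * Ek (a q) (t q) q n‖ ≤ Bd C A0 η x T z

/-- Module Acb -/
def AcbStmt : Prop := ∀ (Φ : Hyp) (α τ ε : ℝ), 0 < ε → ε < 1 / 100 → BlStmt Φ α τ ε →
  ∃ (η C x0 : ℝ) (A0 : ℕ), 0 < η ∧ 0 ≤ C ∧ 3 ≤ x0 ∧ ∀ (x T z : ℝ) (a : ℕ → ℤ) (Y K i j : ℕ) (f g : ℕ → ℂ) (F : Finset ℕ)
    (t : ℕ → ℕ),
  x0 ≤ x → Tau (x ^ (30 : ℝ)) T → 1 ≤ z → z ≤ x → (Y : ℝ) ≤ x → 4 ≤ K → (∀ m, ‖f m‖ ≤ 1) →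
  (∀ n, ‖g n‖ ≤ 1) → (∀ m, f m ≠ 0 → x ^ ((1 : ℝ) / 3) < m ∧ (m : ℝ) ≤ x ^ ((2 : ℝ) / 3)) →
  (K : ℝ) * (Real.log 4 + (1 - ε / 2) * Real.log x) ≤ (i : ℝ) + j → (i : ℝ) + j + 2 ≤ K * Real.log Y →
  (∀ q ∈ F, Mz α τ z x (t q) q ∧ Int.gcd (a q) q = 1) → Φ x a t F →
  ∑ q ∈ F, ‖∑ m ∈ Icc 1 Y, ∑ n ∈ Icc 1 Y, cl K i f m * cl K j g n * Ek (a q) (t q) q (m * n)‖ ≤ Bd C A0 η x T z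

/-- Module Abi -/
def AbiStmt : Prop := ∀ (Φ : Hyp) (α τ ε : ℝ), α ≤ 3 / 5 → 0 < ε → ε < 1 / 100 → BlStmt Φ α τ ε →
  ∃ (η C x0 : ℝ) (A0 : ℕ), 0 < η ∧ 0 ≤ C ∧ 3 ≤ x0 ∧ ∀ (x T z : ℝ) (a : ℕ → ℤ) (Y : ℕ) (f g : ℕ → ℂ) (F : Finset ℕ)
    (t : ℕ → ℕ),
  x0 ≤ x → Tau (x ^ (30 : ℝ)) T → 1 ≤ z → z ≤ x → (Y : ℝ) ≤ x → (∀ m, ‖f m‖ ≤ 1) → (∀ n, ‖g n‖ ≤ 1) →
  (∀ m, f m ≠ 0 → x ^ ((1 : ℝ) / 3) < m ∧ (m : ℝ) ≤ x ^ ((2 : ℝ) / 3)) →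
  (∀ q ∈ F, Mz α τ z x (t q) q ∧ Int.gcd (a q) q = 1) → Φ x a t F →
  ∑ q ∈ F, ‖∑ m ∈ Icc 1 Y, ∑ n ∈ Icc 1 (Y / m), f m * g n * Ek (a q) (t q) q (m * n)‖ ≤ Bd C A0 η x T z

/-- Module Afi -/
def AfiStmt : Prop := ∀ (Φ : Hyp) (α τ ε : ℝ), 0 < ε → ε < 1 / 100 → α ≤ 3 / 5 → 0 ≤ τ → τ ≤ 1 / 3 →
  BlStmt Φ α τ ε → CoreStmt Φ α τ

/-- Module Fth -/
def FthStmt : Prop := ∀ (Φ : Hyp) (α τ : ℝ), α ≤ 3 / 5 → 0 ≤ τ → τ ≤ 1 / 3 → CoreStmt Φ α τ →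
  ∃ (η C x0 : ℝ) (A0 : ℕ), 0 < η ∧ 0 ≤ C ∧ 3 ≤ x0 ∧ ∀ (x T z : ℝ) (a : ℕ → ℤ) (Y : ℕ) (F : Finset ℕ) (t : ℕ → ℕ),
  x0 ≤ x → Tau (x ^ (30 : ℝ)) T → 1 ≤ z → z ≤ x →
  (Y : ℝ) ≤ x → (∀ q ∈ F, Mz α τ z x (t q) q ∧ Int.gcd (a q) q = 1) → Φ x a t F →
  ∑ q ∈ F, ‖∑ p ∈ (Icc 1 Y).filter Nat.Prime, ((Real.log p : ℝ) : ℂ) * Ek (a q) (t q) q p‖ ≤ Bd C A0 η x T z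

/-- Module Fpi -/
def FpiStmt : Prop := ∀ (Φ : Hyp) (α τ : ℝ), α ≤ 3 / 5 → 0 ≤ τ → τ ≤ 1 / 3 → CoreStmt Φ α τ →
  ∃ (η C x0 : ℝ) (A0 : ℕ), 0 < η ∧ 0 ≤ C ∧ 3 ≤ x0 ∧ ∀ (x T z : ℝ) (a : ℕ → ℤ) (Y : ℕ) (F : Finset ℕ) (t : ℕ → ℕ),
  x0 ≤ x → Tau (x ^ (30 : ℝ)) T → 1 ≤ z → z ≤ x →
  (Y : ℝ) ≤ x → (∀ q ∈ F, Mz α τ z x (t q) q ∧ Int.gcd (a q) q = 1) → Φ x a t F →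
  ∑ q ∈ F, |df Y q (t q) (a q)| ≤ Bd C A0 η x T z

/-- Module Fps -/
def FpsStmt : Prop := ∀ (Φ : Hyp) (α τ : ℝ), α ≤ 3 / 5 → 0 ≤ τ → τ ≤ 1 / 3 → CoreStmt Φ α τ →
  ∃ (η C x0 : ℝ) (A0 : ℕ), 0 < η ∧ η ≤ 1 / 10 ∧ 0 ≤ C ∧ 3 ≤ x0 ∧
  ∀ (x T z : ℝ) (s : ℕ → ℤ) (t i : ℕ → ℕ) (y : ℕ → ℝ) (M : Finset ℕ), x0 ≤ x →
  Tau (x ^ (30 : ℝ)) T → 1 ≤ z → z ≤ x → (∀ d, 2 ≤ y d ∧ y d ≤ x) →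
  (∀ d ∈ M, Mz α τ z x (t d) d ∧ Int.gcd (s d) d = 1) →
  (∀ w : ℕ, Φ x s t (M.filter (fun d => i d = w))) →
  ∑ d ∈ M, |df (y d) d (t d) (s d)| ≤ (M.image i).card * Bd C A0 η x T z

end Pool.Agent.Lib.SLA
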