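import Pool.Agent.Lib.SLA.Stm
import Pool.Agent.Lib.MX.StmE

/-!
MP_00e23e_nt, directory Lib/SLA (THEOREM SL, single lock): the lock hypothesis and the theorem for given exponents.
-/

namespace Pool.Agent.Lib.SLA

open Finset Pool.Agent.Lib.EH3 Pool.Agent.Lib.TB Pool.Agent.Results.MP_00e23e_nt Pool.Agent.Lib.MI
open Pool.Agent.Lib.MX (Bd Mz En Sp Bd_nonneg Bd_mono rp_le rn_le log_le_T Tau_x)

/-- the lock: the moduli q ∈ F are x^κ-smooth, r q is a divisor of q in [x^l, x^l'], and the class a q modulo r q depends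
only on r q -/
def Lk (κ l l' : ℝ) : Hyp := fun x a _ F => ∃ r : ℕ → ℕ,
  (∀ q ∈ F, (∀ p : ℕ, p.Prime → p ∣ q → (p : ℝ) ≤ x ^ κ) ∧ r q ∣ q ∧ x ^ l ≤ r q ∧ (r q : ℝ) ≤ x ^ l') ∧
  ∀ q ∈ F, ∀ q' ∈ F, r q = r q' → ((r q : ℕ) : ℤ) ∣ a q - a q'

/-- THEOREM SL for given exponents: all squarefree x^κ-smooth d ≤ x^(1/2+δ), each with a divisor r d in [x^l, x^l']; M is the
union of at most exp(b log x/loglog x) sets {d ∈ M : i d = k} on each of which the class s d modulo r d depends only on r d -/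
def SlAt (δ κ l l' : ℝ) : Prop := ∀ b U : ℝ, 0 < b → 0 < U → ∃ C : ℝ,
  ∀ (x : ℝ) (s : ℕ → ℤ) (r i : ℕ → ℕ) (y : ℕ → ℝ) (M : Finset ℕ), 3 ≤ x → ((M.image i).card : ℝ) ≤ En b x →
  (∀ d, 2 ≤ y d ∧ y d ≤ x) →
  (∀ d ∈ M, (Squarefree d ∧ (d : ℝ) ≤ x ^ (1 / 2 + δ) ∧ (∀ p : ℕ, p.Prime → p ∣ d → (p : ℝ) ≤ x ^ κ) ∧
    Int.gcd (s d) d = 1) ∧ r d ∣ d ∧ x ^ l ≤ r d ∧ (r d : ℝ) ≤ x ^ l') →
  (∀ d ∈ M, ∀ d' ∈ M, i d = i d' → r d = r d' → ((r d : ℕ) : ℤ) ∣ s d - s d') →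
  ∑ d ∈ M, |resErr (y d) d (s d)| ≤ C * (x / (Real.log x) ^ U)

/-- Module Fin (theorem tFin). Uses: FpsStmt, MX.WigStmt, MI.FbvStmt, MX.ExeStmt. -/
def FinStmt : Prop := ∀ δ κ l l' τ : ℝ, 0 ≤ δ → δ ≤ 1 / 10 → 0 < τ → τ ≤ 1 / 3 →
  CoreStmt (Lk κ l l') (1 / 2 + δ) τ → SlAt δ κ l l'

end Pool.Agent.Lib.SLA
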