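import Pool.Agent.Lib.SLA.Stm
import Pool.Agent.Lib.MX.StmE

/-!
MP_00e23e_nt, directory Lib/SLA (THEOREM SL, single lock): the lock hypothesis with an arbitrary factor m ≤ x^μ of the lock and the
theorem for given exponents (generalizes StmF.lean, which is the case m = 1).
-/

namespace Pool.Agent.Lib.SLA

open Finset Pool.Agent.Lib.EH3 Pool.Agent.Lib.TB Pool.Agent.Results.MP_00e23e_nt Pool.Agent.Lib.MI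
open Pool.Agent.Lib.MX (Bd Mz En Sp Bd_nonneg Bd_mono rp_le rn_le log_le_T Tau_x)

/-- the lock: r q is a divisor of q in [x^l, x^l'], m q ≤ x^μ a divisor of r q, all primes of q / m q are ≤ x^κ, and the class
a q modulo r q depends only on r q -/
def Lkm (μ κ l l' : ℝ) : Hyp := fun x a _ F => ∃ r m : ℕ → ℕ,
  (∀ q ∈ F, (m q ∣ r q ∧ (m q : ℝ) ≤ x ^ μ ∧ ∀ p : ℕ, p.Prime → p ∣ q / m q → (p : ℝ) ≤ x ^ κ) ∧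
    r q ∣ q ∧ x ^ l ≤ r q ∧ (r q : ℝ) ≤ x ^ l') ∧
  ∀ q ∈ F, ∀ q' ∈ F, r q = r q' → ((r q : ℕ) : ℤ) ∣ a q - a q'

/-- THEOREM SL for given exponents: squarefree d ≤ x^(1/2+δ), each with a divisor r d in [x^l, x^l'] and a divisor m d ≤ x^μ of
r d such that d / m d is x^κ-smooth; M is the union of at most exp(b log x/loglog x) sets {d ∈ M : i d = k} on each of which the
class s d modulo r d depends only on r d -/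
def SlAm (δ μ κ l l' : ℝ) : Prop := ∀ b U : ℝ, 0 < b → 0 < U → ∃ C : ℝ,
  ∀ (x : ℝ) (s : ℕ → ℤ) (r m i : ℕ → ℕ) (y : ℕ → ℝ) (M : Finset ℕ), 3 ≤ x → ((M.image i).card : ℝ) ≤ En b x →
  (∀ d, 2 ≤ y d ∧ y d ≤ x) →
  (∀ d ∈ M, (Squarefree d ∧ (d : ℝ) ≤ x ^ (1 / 2 + δ) ∧
    (m d ∣ r d ∧ (m d : ℝ) ≤ x ^ μ ∧ ∀ p : ℕ, p.Prime → p ∣ d / m d → (p : ℝ) ≤ x ^ κ) ∧
    Int.gcd (s d) d = 1) ∧ r d ∣ d ∧ x ^ l ≤ r d ∧ (r d : ℝ) ≤ x ^ l') →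
  (∀ d ∈ M, ∀ d' ∈ M, i d = i d' → r d = r d' → ((r d : ℕ) : ℤ) ∣ s d - s d') →
  ∑ d ∈ M, |resErr (y d) d (s d)| ≤ C * (x / (Real.log x) ^ U)

/-- Module Fig (theorem tFig). Uses: FpsStmt, MX.WigStmt, MI.FbvStmt, MX.ExeStmt. -/
def FigStmt : Prop := ∀ δ μ κ l l' τ : ℝ, 0 ≤ δ → δ ≤ 1 / 10 → 0 < τ → τ ≤ 1 / 3 →
  CoreStmt (Lkm μ κ l l') (1 / 2 + δ) τ → SlAm δ μ κ l l'

/-- the pairs w = (r, q) of the theorem in display form: r q squarefree ≤ x^(1/2+δ), r in [x^l, x^l'], r = m r1, m ≤ x^μ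
arbitrary, r1 and q without primes > x^κ; a reduced class s modulo r q and y in [2, x] -/
def Pw (δ μ κ l l' x : ℝ) (s : ℤ) (y : ℝ) (w : ℕ × ℕ) : Prop :=
  (Squarefree (w.1 * w.2) ∧ ((w.1 * w.2 : ℕ) : ℝ) ≤ x ^ (1 / 2 + δ) ∧
    ∃ m : ℕ, m ∣ w.1 ∧ (m : ℝ) ≤ x ^ μ ∧ ∀ p : ℕ, p.Prime → p ∣ w.1 * w.2 / m → (p : ℝ) ≤ x ^ κ) ∧
  (x ^ l ≤ w.1 ∧ (w.1 : ℝ) ≤ x ^ l') ∧ Int.gcd s ((w.1 * w.2 : ℕ) : ℤ) = 1 ∧ 2 ≤ y ∧ y ≤ x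

/-- THEOREM SL in display form, with colours: the sum over all pairs (r, q); P is the union of at most exp(b log x/loglog x) sets
{w ∈ P : i w = k}, on each of which the class s w modulo r depends only on r -/
def SlPc (δ μ κ l l' : ℝ) : Prop := ∀ b U : ℝ, 0 < b → 0 < U → ∃ C : ℝ,
  ∀ (x : ℝ) (s : ℕ × ℕ → ℤ) (y : ℕ × ℕ → ℝ) (i : ℕ × ℕ → ℕ) (P : Finset (ℕ × ℕ)), 3 ≤ x →
  ((P.image i).card : ℝ) ≤ En b x → (∀ w ∈ P, Pw δ μ κ l l' x (s w) (y w) w) →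
  (∀ w ∈ P, ∀ w' ∈ P, i w = i w' → w.1 = w'.1 → (w.1 : ℤ) ∣ s w - s w') →
  ∑ w ∈ P, |resErr (y w) (w.1 * w.2) (s w)| ≤ C * (x / (Real.log x) ^ U)

end Pool.Agent.Lib.SLA
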