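import Pool.Agent.Lib.SLA.StmG

/-!
MP_00e23e_nt, directory Lib/SLA (THEOREM SL, phase 2, helper57): the lock with at most x^c classes. For every value r0 of the
lock the classes a q modulo r0 of the moduli q with r q = r0 take at most x^c values (c = 0: one value, StmG.lean). No colours:
exp(b log x/loglog x) colours are at most x^c' values for every c' > 0.
-/

namespace Pool.Agent.Lib.SLA

open Finset Pool.Agent.Lib.EH3 Pool.Agent.Lib.TB Pool.Agent.Results.MP_00e23e_nt Pool.Agent.Lib.MI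
open Pool.Agent.Lib.MX (Bd Mz En Sp Bd_nonneg Bd_mono rp_le rn_le log_le_T Tau_x)

/-- the lock with x^c classes: r q is a divisor of q in [x^l, x^l'], m q ≤ x^μ a divisor of r q, all primes of q / m q are
≤ x^κ, and for every r0 the residues a q modulo r0, where q ∈ F, r q = r0, take at most x^c values -/
def Lkc (c μ κ l l' : ℝ) : Hyp := fun x a _ F => ∃ r m : ℕ → ℕ,
  (∀ q ∈ F, (m q ∣ r q ∧ (m q : ℝ) ≤ x ^ μ ∧ ∀ p : ℕ, p.Prime → p ∣ q / m q → (p : ℝ) ≤ x ^ κ) ∧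
    r q ∣ q ∧ x ^ l ≤ r q ∧ (r q : ℝ) ≤ x ^ l') ∧
  ∀ r0 : ℕ, (((F.filter (fun q => r q = r0)).image (fun q => a q % (r0 : ℤ))).card : ℝ) ≤ x ^ c

/-- THEOREM SL for given exponents, x^c classes: squarefree d ≤ x^(1/2+δ), each with a divisor r d in [x^l, x^l'] and a divisor
m d ≤ x^μ of r d such that d / m d is x^κ-smooth; for every r0 the residues s d modulo r0, where d ∈ M, r d = r0, take at most
x^c values -/
def SlAk (c δ μ κ l l' : ℝ) : Prop := ∀ U : ℝ, 0 < U → ∃ C : ℝ,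
  ∀ (x : ℝ) (s : ℕ → ℤ) (r m : ℕ → ℕ) (y : ℕ → ℝ) (M : Finset ℕ), 3 ≤ x →
  (∀ d, 2 ≤ y d ∧ y d ≤ x) →
  (∀ d ∈ M, (Squarefree d ∧ (d : ℝ) ≤ x ^ (1 / 2 + δ) ∧
    (m d ∣ r d ∧ (m d : ℝ) ≤ x ^ μ ∧ ∀ p : ℕ, p.Prime → p ∣ d / m d → (p : ℝ) ≤ x ^ κ) ∧
    Int.gcd (s d) d = 1) ∧ r d ∣ d ∧ x ^ l ≤ r d ∧ (r d : ℝ) ≤ x ^ l') →
  (∀ r0 : ℕ, (((M.filter (fun d => r d = r0)).image (fun d => s d % (r0 : ℤ))).card : ℝ) ≤ x ^ c) →
  ∑ d ∈ M, |resErr (y d) d (s d)| ≤ C * (x / (Real.log x) ^ U)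

/-- Module Fik (theorem tFik). Uses: FpsStmt, MX.WigStmt, MI.FbvStmt, MX.ExeStmt. -/
def FikStmt : Prop := ∀ c δ μ κ l l' τ : ℝ, 0 ≤ δ → δ ≤ 1 / 10 → 0 < τ → τ ≤ 1 / 3 →
  CoreStmt (Lkc c μ κ l l') (1 / 2 + δ) τ → SlAk c δ μ κ l l'

/-- THEOREM SL in display form, x^c classes: the sum over all pairs w = (r, q) ∈ P of the type Pw (StmG.lean: r q squarefree
≤ x^(1/2+δ), r in [x^l, x^l'], r = m r1, m ≤ x^μ arbitrary, r1 and q without primes > x^κ, s w a reduced class modulo r q,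
y w in [2, x]) for which, for every r, the residues s w modulo r, where w ∈ P, w.1 = r, take at most x^c values -/
def SlPk (c δ μ κ l l' : ℝ) : Prop := ∀ U : ℝ, 0 < U → ∃ C : ℝ,
  ∀ (x : ℝ) (s : ℕ × ℕ → ℤ) (y : ℕ × ℕ → ℝ) (P : Finset (ℕ × ℕ)), 3 ≤ x →
  (∀ w ∈ P, Pw δ μ κ l l' x (s w) (y w) w) →
  (∀ r : ℕ, (((P.filter (fun w => w.1 = r)).image (fun w => s w % (r : ℤ))).card : ℝ) ≤ x ^ c) →
  ∑ w ∈ P, |resErr (y w) (w.1 * w.2) (s w)| ≤ C * (x / (Real.log x) ^ U)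

/-- a subset of the moduli -/
theorem Lkc_mono {c μ κ l l' x : ℝ} {a : ℕ → ℤ} {t : ℕ → ℕ} {F F' : Finset ℕ} (h : F' ⊆ F) (hF : Lkc c μ κ l l' x a t F) :
    Lkc c μ κ l l' x a t F' := by
  obtain ⟨r, m, h1, h2⟩ := hF
  refine ⟨r, m, fun q hq => h1 q (h hq), fun r0 => le_trans ?_ (h2 r0)⟩
  exact_mod_cast card_le_card (image_subset_image (filter_subset_filter _ h))

/-- the lock with one class is the case c = 0 -/
theorem Lkm_Lkc {c μ κ l l' x : ℝ} (hc : 0 ≤ c) (hx : 1 ≤ x) {a : ℕ → ℤ} {t : ℕ → ℕ} {F : Finset ℕ}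
    (h : Lkm μ κ l l' x a t F) : Lkc c μ κ l l' x a t F := by
  obtain ⟨r, m, h1, h2⟩ := h
  refine ⟨r, m, h1, fun r0 => ?_⟩
  have h3 : ((F.filter (fun q => r q = r0)).image (fun q => a q % (r0 : ℤ))).card ≤ 1 := by
    refine card_le_one.2 fun u hu v hv => ?_
    rw [mem_image] at hu hv
    obtain ⟨q, hq, rfl⟩ := hu
    obtain ⟨q', hq', rfl⟩ := hv
    rw [mem_filter] at hq hq'
    have h4 := h2 q' hq'.1 q hq.1 (hq'.2.trans hq.2.symm)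
    rw [hq'.2] at h4
    exact (Int.modEq_iff_dvd.2 h4)
  have h4 : ((((F.filter (fun q => r q = r0)).image (fun q => a q % (r0 : ℤ))).card : ℕ) : ℝ) ≤ 1 := by exact_mod_cast h3
  exact h4.trans (Real.one_le_rpow hx hc)

end Pool.Agent.Lib.SLA
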